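import Pool.Agent.Lib.MP_efe47c_gt.Defs

/-! Manifolds which are standard, and manifolds which are standard off one point. -/

namespace Pool.Agent.Lib.MP_efe47c_gt.V
open Set

variable {M : Type} [TopologicalSpace M] [ChartedSpace R5 M]

/-- `M` minus a point `x` is contactomorphic to the standard sphere minus a point, and `x` lies in
a Darboux chart. -/
def Off (α : Form R5 M) : Prop :=
  ∃ (x : M) (y : S5) (g : PD R5 M S5) (d : PD R5 S5 M), g.source = {x}ᶜ ∧ g.target = {y}ᶜ ∧
    Contacto α std g ∧ x ∈ d.target ∧ Contacto std α d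

/-- `M` is contactomorphic to the standard sphere. -/
def Std (α : Form R5 M) : Prop :=
  ∃ g : PD R5 M S5, g.source = univ ∧ g.target = univ ∧ Contacto α std g

end Pool.Agent.Lib.MP_efe47c_gt.V
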