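import Pool.Agent.Lib.MP_efe47c_gt.V.Glue
import Pool.Agent.Lib.MP_efe47c_gt.V.Defs
import Pool.Agent.Lib.MP_efe47c_gt.C.Top

/-! A closed manifold which is standard off a point is a summand of the standard sphere. -/

namespace Pool.Agent.Lib.MP_efe47c_gt.V
open Set Filter Topology Metric Function Complex
open scoped ContDiff Manifold

noncomputable section

variable {M : Type} [TopologicalSpace M] [ChartedSpace R5 M]

theorem conv [T2Space M] [CompactSpace M] {α : Form R5 M} (h : Off α) {N : Type}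
    [TopologicalSpace N] (ν : N ≃ₜ S5) :
    ∃ _ : ChartedSpace R5 N, IsManifold (𝓡 5) ∞ N ∧ ∃ (β : Form R5 N) (e : PD R5 S5 M) (n : S5)
      (f : M ≃ₜ S5), IsSum α β std ∧ n ∈ e.source ∧ Contacto std α e ∧
      (∀ m, m ≠ e n → LD (fn α) aS f m) ∧ (∀ q, ν q ≠ -n → LD (fn β) aS ν q) ∧
      ∀ᶠ q in 𝓝 (ν.symm (-n)), LD (fn β) aS (fun q => f (e (-ν q))) q := by
  classical
  obtain ⟨x, y, g, d, gs, gt, hg, hx, hd⟩ := h
  obtain ⟨e, n, he, es, hn, en⟩ := exists_cap hd hx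
  obtain ⟨f, hf⟩ := exists_homeo gs gt
  have lf : ∀ m, m ≠ x → LD (fn α) aS f m := fun m hm =>
    (hg.ld (gs ▸ hm)).congr ((eventually_ne_nhds hm).mono fun z hz => hf hz)
  have ns : n ∈ e.source := by rw [es]; change _ < ht n; linarith
  have ms : ∀ p : S5, ht p < 1 / 2 → -p ∈ e.source := fun p hp => by
    rw [es]; change _ < ht (-p); rw [ht_neg]; linarith
  have lT : ∀ p : S5, ht p < 1 / 2 → p ≠ -n → LD aS aS (fun p => f (e (-p))) p := fun p hp k => by
    have l := LD.comp (g := e) (he.ld (ms p hp)) (LD_neg p)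
    refine LD.comp (g := f) (lf _ fun k' => k ?_) l
    rw [← e.injOn (ms p hp) ns (k'.trans en.symm), neg_neg]
  let φ₁ : OpenPartialHomeomorph N S5 :=
    ν.transOpenPartialHomeomorph (OpenPartialHomeomorph.ofSet {-n}ᶜ isOpen_compl_singleton)
  let φ₂ : OpenPartialHomeomorph N S5 :=
    ((ν.trans (Homeomorph.neg S5)).transOpenPartialHomeomorph
      e.toOpenPartialHomeomorph).transHomeomorph f
  have a1 : ∀ q, q ∈ φ₁.source ↔ ν q ≠ -n := fun q => Iff.rfl
  have a2 : ∀ q, q ∈ φ₂.source ↔ ht (ν q) < 1 / 2 := fun q => by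
    change -ν q ∈ e.source ↔ _
    rw [es]
    change _ < ht (-ν q) ↔ _
    rw [ht_neg, neg_lt_neg_iff]
  have b2 : ∀ q, φ₂ q = f (e (-ν q)) := fun q => rfl
  have lT' : ∀ q ∈ φ₁.source, q ∈ φ₂.source → LD aS aS (fun p => φ₂ (ν.symm p)) (ν q) :=
    fun q h1 h2 => (lT _ ((a2 q).1 h2) h1).congr (.of_forall fun p => by
      simp only [b2, ν.apply_symm_apply])
  have lS : ∀ q ∈ φ₁.source, q ∈ φ₂.source → LD aS aS (fun p => ν (φ₂.symm p)) (φ₂ q) :=
    fun q h1 h2 => (lT' q h1 h2).symm' (by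
      filter_upwards [(φ₂.open_source.preimage ν.symm.continuous).mem_nhds
        (show ν.symm (ν q) ∈ φ₂.source by rwa [ν.symm_apply_apply])] with p hp
      rw [φ₂.left_inv hp, ν.apply_symm_apply]) (by rw [ν.symm_apply_apply])
  have same : ∀ φ : OpenPartialHomeomorph N S5, ∀ q ∈ φ.source,
      Sm R5 R5 (fun p => φ (φ.symm p)) (φ q) := fun φ q hq =>
    contMDiffAt_id.congr_of_eventuallyEq (φ.eventually_right_inverse' hq)
  obtain ⟨cs, im, sm⟩ := exists_glue {φ₁, φ₂} (fun q => by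
      by_cases k : ν q = -n
      · exact ⟨φ₂, Or.inr rfl, (a2 q).2 (by rw [k, ht_neg, hn]; norm_num)⟩
      · exact ⟨φ₁, Or.inl rfl, k⟩) (by
    rintro _ (rfl | rfl) _ (rfl | rfl) q h1 h2
    · exact same _ q h1
    · exact (lT' q h1 h2).sm
    · exact (lS q h2 h1).sm
    · exact same _ q h1)
  let pb : (N → S5) → Form R5 N := fun φ q =>
    (std (φ q)).comp (mfderiv 𝓘(ℝ, R5) 𝓘(ℝ, R5) φ q)
  let β : Form R5 N := fun q => if ht (ν q) < 1 / 2 then pb φ₂ q else pb φ₁ q
  have mk : ∀ φ ∈ ({φ₁, φ₂} : Set _), ∀ q ∈ φ.source, β q = pb φ q → LD (fn β) aS φ q :=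
    fun φ hφ q hq k => ⟨(sm φ hφ q hq).1, ⟨φ.symm, (sm φ hφ q hq).2,
      φ.eventually_left_inverse hq, φ.eventually_right_inverse' hq⟩, 1, one_pos, fun v => by
        rw [one_mul, fn, k]; rfl⟩
  have l2 : ∀ q ∈ φ₂.source, LD (fn β) aS φ₂ q := fun q hq =>
    mk _ (Or.inr rfl) q hq (if_pos ((a2 q).1 hq))
  have l1 : ∀ q ∈ φ₁.source, LD (fn β) aS ν q := fun q hq => by
    by_cases k : q ∈ φ₂.source
    · exact ((lS q hq k).comp (l2 q k)).congr
        ((φ₂.eventually_left_inverse k).mono fun z hz => (congrArg ν hz).symm)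
    · exact mk _ (Or.inl rfl) q hq (if_neg fun k' => k ((a2 q).2 k'))
  have sub : ∀ p : S5, 1 / 2 ≤ ht p → p ∈ e.source := fun p hp => by
    rw [es]; change _ < ht p; linarith
  have : Nonempty M := ⟨x⟩
  have : Nonempty S5 := ⟨n⟩
  have : Nonempty N := ⟨ν.symm n⟩
  obtain ⟨j₁, s1, t1, c1, k1⟩ := exists_pd (α := α) (β := std) (f := f)
    (U := (e '' {p | 1 / 2 ≤ ht p})ᶜ)
    ((isClosed_le continuous_const cont_ht).isCompact.image_of_continuousOn
      (e.contMDiffOn_toFun.continuousOn.mono sub)).isClosed.isOpen_compl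
    f.injective.injOn.bijOn_image fun m hm => lf m fun k => hm ⟨n, by
      change _ ≤ ht n; linarith, en.trans k.symm⟩
  obtain ⟨e₂, s2, -, c2, k2⟩ := exists_pd (α := std) (β := β) (f := ν.symm)
    (U := {p | -(1 / 2) < ht p}) (isOpen_lt continuous_const cont_ht)
    ν.symm.injective.injOn.bijOn_image fun p hp =>
      (l1 (ν.symm p) (by
        rw [a1, ν.apply_symm_apply]
        rintro rfl
        have : -(1 / 2) < ht (-n) := hp
        rw [ht_neg] at this
        linarith)).symm' (.of_forall ν.symm_apply_apply) (ν.apply_symm_apply p)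
  obtain ⟨j₂, s3, t3, c3, k3⟩ := exists_pd (α := β) (β := std) (f := φ₂) φ₂.open_source
    φ₂.bijOn l2
  refine ⟨cs, im, β, e, n, f, ⟨1 / 2, by norm_num, by norm_num, e, j₁, e₂, j₂, ⟨he, k1, es, s1⟩,
    ⟨k2, k3, s2, ?_⟩, ?_, fun m hm q hq => ?_⟩, ns, he, en.symm ▸ lf, l1,
    mem_of_superset (φ₂.open_source.mem_nhds ((a2 _).2 (by
      rw [ν.apply_symm_apply, ht_neg, hn]; norm_num))) l2⟩
  · rw [s3, c2]
    ext q
    rw [a2, mem_compl_iff, ← not_le]
    exact not_congr ⟨fun k => ⟨ν q, k, ν.symm_apply_apply q⟩, by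
      rintro ⟨p, hp, rfl⟩
      rwa [ν.apply_symm_apply]⟩
  · rw [t1, t3, eq_univ_iff_forall]
    intro z
    obtain ⟨m, rfl⟩ := f.surjective z
    by_cases k : m ∈ e '' {p | 1 / 2 ≤ ht p}
    · obtain ⟨p, hp, rfl⟩ := k
      have hp' : 1 / 2 ≤ ht p := hp
      have := φ₂.map_source ((a2 (ν.symm (-p))).2 (by rw [ν.apply_symm_apply, ht_neg]; linarith))
      rw [b2, ν.apply_symm_apply, neg_neg] at this
      exact Or.inr this
    · exact Or.inl ⟨m, k, rfl⟩
  · rw [s1] at hm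
    rw [s3, a2] at hq
    rw [c1, c2, c3, b2, f.injective.eq_iff]
    constructor
    · rintro rfl
      refine ⟨-ν q, abs_lt.2 ⟨?_, not_le.1 fun k => hm ⟨_, k, rfl⟩⟩, rfl, by simp⟩
      change _ < ht (-ν q)
      rw [ht_neg]
      linarith
    · rintro ⟨p, -, rfl, rfl⟩
      simp

/-- `M` is one of the two summands of a contact connected sum decomposition of the standard
sphere; the other summand is a closed manifold. -/
def Summand (α : Form R5 M) : Prop :=
  ∃ (N : Type) (_ : TopologicalSpace N) (_ : ChartedSpace R5 N) (_ : IsManifold (𝓡 5) ∞ N)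
    (_ : T2Space N) (_ : CompactSpace N) (β : Form R5 N), IsSum α β std ∨ IsSum β α std

theorem Off.summand [T2Space M] [CompactSpace M] {α : Form R5 M} (h : Off α) : Summand α := by
  obtain ⟨cs, im, β, -, -, -, k, -⟩ := conv h (Homeomorph.refl S5)
  exact ⟨S5, _, cs, im, inferInstance, inferInstance, β, Or.inl k⟩

theorem Summand.top [T2Space M] [CompactSpace M] {α : Form R5 M} (h : Summand α) : C.TopStd α := by
  obtain ⟨N, _, _, -, -, -, β, ⟨ε, e0, e1, _, _, _, _, h, -⟩ | ⟨ε, e0, e1, _, _, _, _, -, h, -⟩⟩ := h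
  exacts [C.piece_top e0 e1 h, C.piece_top e0 e1 h]

theorem off_of_top [T2Space M] {α : Form R5 M} (h : C.TopStd α) : Off α := by
  obtain ⟨f, x, -, g, -, gs, hf, ⟨-, -, hp⟩, -, d, -, hx, hd, -⟩ := h
  refine ⟨x, f x, g, d, gs, ?_, fun m hm => ?_, hx, hd⟩
  · rw [← g.image_source_eq_target, gs, ← hf.image_eq, image_compl_eq f.bijective, image_singleton]
  · rw [gs] at hm
    obtain ⟨c, c0, hc⟩ := hp m
    refine ⟨c, c0, fun v => ?_⟩
    change fn std (g m) (D R5 R5 g m v) = _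
    rw [← D_congr ((eventually_ne_nhds hm).mono fun z hz => hf hz), ← hf hm]
    exact hc v

end
end Pool.Agent.Lib.MP_efe47c_gt.V
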