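import Pool.Agent.Lib.MP_efe47c_gt.V.Gen

/-! Germs of contactomorphisms extend to the sphere. -/

namespace Pool.Agent.Lib.MP_efe47c_gt.V
open Set Filter Topology Metric Function Complex
open scoped ContDiff Manifold ComplexConjugate

noncomputable section

theorem Xt.lh {φ : H → H} (h : Xt aS φ) : ∀ᶠ p in 𝓝 0, LH φ p := by
  obtain ⟨Φ, h1, h2⟩ := h
  filter_upwards [h2.eventually_nhds] with p hp
  have l := (h1 _).comp (LD_kap (U := U0) p)
  refine (LD.comp (g := cay U0) (LD_cay (hp.self_of_nhds ▸ kap_ne _)) l).congr ?_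
  filter_upwards [hp] with q hq
  rw [hq, cay_kap]

/-- Dilations. -/
def dl (l : ℝ) : H →L[ℝ] H := l • hz + l ^ 2 • dt.smulRight et

theorem dl_apply (l : ℝ) (p : H) : dl l p = l • hz p + (l ^ 2 * dt p) • et := by
  simp [dl, smul_smul]

theorem hz_dl (l : ℝ) (p : H) : hz (dl l p) = l • hz p := by simp [dl_apply, hz_hz, hz_et]

theorem dt_dl (l : ℝ) (p : H) : dt (dl l p) = l ^ 2 * dt p := by simp [dl_apply, dt_hz, dt_et]

theorem th_dl (l : ℝ) (v p : H) : th v (dl l p) = l * th v p := by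
  simp [dl_apply, th_add', th_smul', th_et', th_hz']

theorem dl_dl (l m : ℝ) (p : H) : dl l (dl m p) = dl (l * m) p := by
  rw [dl_apply, hz_dl, dt_dl, dl_apply, smul_smul, mul_pow, mul_assoc]

theorem dl_inv {l : ℝ} (h : l ≠ 0) (p : H) : dl l (dl l⁻¹ p) = p := by
  rw [dl_dl, mul_inv_cancel₀ h]
  simp [dl_apply, hz_add]

theorem xt_dl {l : ℝ} (h : 0 < l) : Xt aS (dl l) := by
  obtain ⟨η, η0, hη⟩ := gen
  rw [← Real.exp_log h]
  refine one_par (P := fun k => Xt aS (dl (Real.exp k))) ?_ (fun s t a b =>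
    (a.comp b (tz _)).congr (.of_forall fun p => by simp only [dl_dl, Real.exp_add])) _
  have t : Tendsto (fun k => Real.exp k ^ 2 - 1) (𝓝 0) (𝓝 0) :=
    Continuous.tendsto' (by fun_prop) _ _ (by simp)
  filter_upwards [t.eventually (sml_mul dt.contDiff η0)] with k hk
  refine hη _ _ (Real.exp k • hz + dt.smulRight et : H →L[ℝ] H) hk (tz _) (.of_forall fun p => ?_)
  have e : ∀ q, fderiv ℝ (fun q => (Real.exp k ^ 2 - 1) • dt q) q = (Real.exp k ^ 2 - 1) • dt :=
    fun q => ((Real.exp k ^ 2 - 1) • dt).fderiv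
  obtain ⟨j1, j2⟩ := jet_eq (j := (Real.exp k ^ 2 - 1) • dt) (k := Real.exp k ^ 2 - 1) (d := 0) rfl
    fun v => by simp [th_zero]
  simp only [AA, BB, jt, nu', e, j1, j2, add_sub_cancel, Real.sqrt_sq (Real.exp_pos k).le]
  simp [hz_hz, hz_et, dt_hz, dt_et, smul_smul, hz_add, dl_apply, th]
  module

/-- The symplectic product with a vector. -/
def tl (a : H) : J := LinearMap.toContinuousLinearMap ⟨⟨th a, fun v w => th_add' v w a⟩,
  fun s v => th_smul' s v a⟩

theorem tl_apply (a p : H) : tl a p = th a p := rfl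

theorem xt_tv {a : H} (h : dt a = 0) (s : ℝ) : Xt aS (Tr (s • tl a) a) := by
  obtain ⟨η, η0, hη⟩ := gen
  refine one_par (P := fun s => Xt aS (Tr (s • tl a) a)) ?_ (fun s t a b =>
    (a.comp b (tz _)).congr (.of_forall fun p => by
      simp [Tr_apply, tl_apply, th_add', th_smul', th_self]
      module)) _
  filter_upwards [sml_mul (F := fun q => -2 * (tl a q * tl a q)) (by fun_prop) η0] with s hs
  refine hη _ _ (Tr ((s / 2) • tl a) a) hs (tz _) (.of_forall fun p => ?_)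
  have e : ∀ q, fderiv ℝ (fun q => s • (-2 * (tl a q * tl a q))) q = (-4 * s * th a q) • tl a :=
    fun q => by
      have d : HasFDerivAt (fun q => s • (-2 * (tl a q * tl a q))) _ q :=
        (((tl a).hasFDerivAt.mul (tl a).hasFDerivAt).const_mul (-2)).const_smul s
      rw [d.fderiv, tl_apply]
      module
  have j := fun q => jet_eq (j := (-4 * s * th a q) • tl a) (k := 0) (d := (s * th a q) • a)
    (by simp [h]) fun v => by simp [tl_apply, th_smul]; ring
  simp only [AA, BB, jt, nu', e, (j _).1, (j _).2]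
  have b := th_anti p a
  simp only [Tr_apply, smul_apply, tl_apply, th_add, th_add', th_smul, th_smul', th_self, map_add,
    map_smul, hz_of h, h, hz_apply p, b, smul_eq_mul, add_zero, Real.sqrt_one, inv_one]
  constructor <;> module

theorem LD_open {A : H → H} (h : ∀ᶠ p in 𝓝 0, ContDiffAt ℝ ∞ A p)
    (i : Injective (fderiv ℝ A 0)) : ∀ᶠ p in 𝓝 0, LD zH zH A p := by
  obtain ⟨e, he⟩ := exists_eq i
  have c : ContinuousAt (fun p => ‖(e.symm : H →L[ℝ] H).comp (fderiv ℝ A p) - .id ℝ H‖) 0 :=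
    ((continuousAt_const.clm_comp (cd_fd h.self_of_nhds).continuousAt).sub continuousAt_const).norm
  filter_upwards [h, c.eventually_lt continuousAt_const (g := fun _ => 1 / 2) (by simp [← he])]
    with p a b
  exact LD_inj a (Injective.of_comp (f := e.symm) (inj_near b.le))

theorem resc {F : H → ℝ} (h : ∀ᶠ q in 𝓝 0, ContDiffAt ℝ ∞ F q) (h0 : F 0 = 0)
    (h1 : fderiv ℝ F 0 = 0) (h2 : ∀ v w, fderiv ℝ (fderiv ℝ F) 0 (hz v) (hz w) = 0) {η : ℝ}
    (η0 : 0 < η) : ∃ l, 0 < l ∧ Sml η fun q => l⁻¹ ^ 2 • F (dl l q) := by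
  let gm : ℝ → H →L[ℝ] H := fun l => hz + l • dt.smulRight et
  let N : ℝ × H → H →L[ℝ] J := fun z =>
    (((ContinuousLinearMap.compL ℝ H H ℝ).flip (gm z.1)).comp
      (fderiv ℝ (fderiv ℝ F) (dl z.1 z.2))).comp (gm z.1)
  have cg : Continuous fun z : ℝ × H => gm z.1 :=
    continuous_const.add (continuous_fst.smul continuous_const)
  have cd : ∀ p, Tendsto (fun z : ℝ × H => dl z.1 z.2) (𝓝 (0, p)) (𝓝 0) := fun p =>
    Continuous.tendsto' (by simp only [dl_apply]; fun_prop) _ _ (by simp [dl])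
  have k := (isCompact_closedBall (0 : H) 3).eventually_forall_of_forall_eventually (x₀ := (0 : ℝ))
    (P := fun l p => ContDiffAt ℝ ∞ F (dl l p) ∧ ‖N (l, p)‖ < η / 5) fun p _ => by
      refine ((cd p).eventually h).and (ContinuousAt.eventually_lt ?_ continuousAt_const ?_)
      · have c1 : ContinuousAt (fun z : ℝ × H => fderiv ℝ (fderiv ℝ F) (dl z.1 z.2)) (0, p) :=
          ContinuousAt.comp_of_eq (cd_fd (cd_fd h.self_of_nhds)).continuousAt
            (Continuous.continuousAt (by simp only [dl_apply]; fun_prop)) (by simp [dl])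
        exact ((((ContinuousLinearMap.compL ℝ H H ℝ).flip.continuous.comp cg).continuousAt.clm_comp
          c1).clm_comp cg.continuousAt).norm
      · have : N (0, p) = 0 := ContinuousLinearMap.ext fun v => ContinuousLinearMap.ext fun w => by
          simpa [N, gm, dl] using h2 v w
        rw [this, ContinuousLinearMap.opNorm_zero]
        positivity
  obtain ⟨l, hl, l0⟩ := ((k.filter_mono nhdsWithin_le_nhds).and
    (self_mem_nhdsWithin (s := Ioi (0 : ℝ)))).exists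
  have l0' : l ≠ 0 := ne_of_gt l0
  have eg : dl l = l • gm l := by simp only [dl, gm]; module
  have c1 : ∀ q ∈ ball (0 : H) 3, ContDiffAt ℝ ∞ (fun q => l⁻¹ ^ 2 • F (dl l q)) q := fun q hq =>
    ((hl q (ball_subset_closedBall hq)).1.comp q (dl l).contDiff.contDiffAt).const_smul _
  have d1 : ∀ q ∈ ball (0 : H) 3, fderiv ℝ (fun q => l⁻¹ ^ 2 • F (dl l q)) q =
      l⁻¹ • (ContinuousLinearMap.compL ℝ H H ℝ).flip (gm l) (fderiv ℝ F (dl l q)) := fun q hq => by
    have d : HasFDerivAt (fun q => l⁻¹ ^ 2 • F (dl l q)) _ q :=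
      ((cd_diff (hl q (ball_subset_closedBall hq)).1).hasFDerivAt.comp q
        (dl l).hasFDerivAt).const_smul (l⁻¹ ^ 2)
    rw [d.fderiv]
    generalize fderiv ℝ F (dl l q) = j
    rw [eg, ContinuousLinearMap.comp_smul, smul_smul, pow_two, inv_mul_cancel_right₀ l0']
    rfl
  have s23 : closedBall (0 : H) 2 ⊆ ball 0 3 := closedBall_subset_ball (by norm_num)
  have d2 : ∀ p ∈ closedBall (0 : H) 2,
      ‖fderiv ℝ (fderiv ℝ fun q => l⁻¹ ^ 2 • F (dl l q)) p‖ ≤ η / 5 := fun p hp => by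
    obtain ⟨a, b⟩ := hl p (ball_subset_closedBall (s23 hp))
    have d := (((ContinuousLinearMap.compL ℝ H H ℝ).flip (gm l)).hasFDerivAt.comp p
      ((cd_diff (cd_fd a)).hasFDerivAt.comp p (dl l).hasFDerivAt)).const_smul l⁻¹
    rw [(d.congr_of_eventuallyEq (mem_of_superset (isOpen_ball.mem_nhds (s23 hp)) d1)).fderiv]
    refine le_of_eq_of_le (congrArg norm ?_) b.le
    simp only [N]
    generalize fderiv ℝ (fderiv ℝ F) (dl l p) = j
    rw [eg, ContinuousLinearMap.comp_smul, ContinuousLinearMap.comp_smul, inv_smul_smul₀ l0',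
      ContinuousLinearMap.comp_assoc]
  have d3 : ∀ p ∈ closedBall (0 : H) 2,
      ‖fderiv ℝ (fun q => l⁻¹ ^ 2 • F (dl l q)) p‖ ≤ 2 * (η / 5) := fun p hp =>
    mvt (fun q hq => ⟨cd_diff (cd_fd (c1 q (s23 hq))), d2 q hq⟩)
      (by rw [d1 0 (mem_ball_self three_pos)]; simp [h1]) hp
  refine ⟨l, l0, c1, fun p hp => ⟨?_, by linarith [d3 p hp], by linarith [d2 p hp]⟩⟩
  linarith [mvt (fun q hq => ⟨cd_diff (c1 q (s23 hq)), d3 q hq⟩) (by simp [h0]) hp]

theorem jt_dl {F : H → ℝ} {l : ℝ} (l0 : l ≠ 0) {q : H} (h : ContDiffAt ℝ ∞ F (dl l q)) :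
    dl l (AA (jt (fun q => l⁻¹ ^ 2 • F (dl l q)) q)) = AA (jt F (dl l q)) ∧
      dl l (BB (jt (fun q => l⁻¹ ^ 2 • F (dl l q)) q)) = BB (jt F (dl l q)) := by
  have d : HasFDerivAt (fun q => l⁻¹ ^ 2 • F (dl l q)) _ q :=
    ((cd_diff h).hasFDerivAt.comp q (dl l).hasFDerivAt).const_smul (l⁻¹ ^ 2)
  simp only [AA, BB, jt, nu', d.fderiv]
  generalize fderiv ℝ F (dl l q) = j
  generalize F (dl l q) = f
  obtain ⟨j1, j2⟩ := jet_eq (j := l⁻¹ ^ 2 • j.comp (dl l)) (k := j et) (d := l⁻¹ • dj j)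
    (by simp [dt_dj]) fun v => by
      rw [smul_apply, ContinuousLinearMap.comp_apply, jet j, dt_dl, th_dl, th_smul, smul_eq_mul]
      field_simp
  rw [j1, j2, hz_dl, dt_dl, th_anti (dl l q), th_dl, th_smul', th_anti q]
  simp only [map_add, map_smul, map_sub, dl_apply, hz_hz, dt_hz, hz_of (dt_dj j), dt_dj, hz_et,
    dt_et, smul_eq_mul]
  constructor <;> match_scalars <;> field_simp <;> ring

/-- The conformal factor. -/
def cf (φ : H → H) (p : H) : ℝ := aH (φ p) (fderiv ℝ φ p et)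

theorem cf_spec {φ : H → H} {p : H} (h : LH φ p) :
    0 < cf φ p ∧ ∀ v, aH (φ p) (fderiv ℝ φ p v) = cf φ p * aH p v := by
  obtain ⟨c, c0, hc⟩ := h.cf
  simp only [D_vec] at hc
  have : cf φ p = c := by simp [cf, hc, aH_eq, dt_et, th_et']
  exact this ▸ ⟨c0, hc⟩

theorem cd_cf {φ : H → H} {p : H} (h : ContDiffAt ℝ ∞ φ p) : ContDiffAt ℝ ∞ (cf φ) p := by
  have k := cd_L (ContinuousLinearMap.apply ℝ H et) (cd_fd h)
  exact (cd_L dt k).add (contDiffAt_const.mul (cd_th2 h k))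

theorem tl0 (v : H) : Tendsto (fun s : ℝ => (0 : H) + s • v) (𝓝 0) (𝓝 0) :=
  Continuous.tendsto' (by fun_prop) _ _ (by simp)

theorem germ1 {φ : H → H} (h : ∀ᶠ p in 𝓝 0, LH φ p) (h0 : φ 0 = 0) (h1 : cf φ 0 = 1)
    (h2 : ∀ v, fderiv ℝ φ 0 (hz v) = hz v) : Xt aS φ := by
  obtain ⟨η, η0, hη⟩ := gen
  let m : H → ℝ := fun p => √(cf φ p)
  let C : H → H := fun p => (1 / 2 : ℝ) • (hz (φ p) + m p • hz p) + dt p • et
  let d : H → H := fun p => hz (φ p) - m p • hz p
  let Φ : H → ℝ := fun p => dt (φ p) - dt p + 2 * th (C p) (d p)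
  have cm : ∀ {p}, LH φ p → ContDiffAt ℝ ∞ m p := fun a =>
    (cd_cf a.sm.contDiffAt).sqrt (cf_spec a).1.ne'
  have cC : ∀ {p}, LH φ p → ContDiffAt ℝ ∞ C p := fun a =>
    (((cd_L hz a.sm.contDiffAt).add ((cm a).smul hz.contDiff.contDiffAt)).const_smul _).add
      (dt.contDiff.contDiffAt.smul contDiffAt_const)
  have cd : ∀ {p}, LH φ p → ContDiffAt ℝ ∞ d p := fun a =>
    (cd_L hz a.sm.contDiffAt).sub ((cm a).smul hz.contDiff.contDiffAt)
  have cΦ : ∀ {p}, LH φ p → ContDiffAt ℝ ∞ Φ p := fun a =>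
    ((cd_L dt a.sm.contDiffAt).sub dt.contDiff.contDiffAt).add
      (contDiffAt_const.mul (cd_th2 (cC a) (cd a)))
  have dC : ∀ {p}, LH φ p → ∀ v, fderiv ℝ C p v = (1 / 2 : ℝ) • (hz (fderiv ℝ φ p v) +
      (m p • hz v + fderiv ℝ m p v • hz p)) + dt v • et := fun {p} a v => by
    simpa using fd_line (cC a) ((((hd_L hz (hd_of a.sm.contDiffAt v)).add ((hd_of (cm a) v).smul
      (hd_L hz (hd_line p v)))).const_smul (1 / 2 : ℝ)).add ((hd_L dt (hd_line p v)).smul_const et))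
  have dd : ∀ {p}, LH φ p → ∀ v, fderiv ℝ d p v = hz (fderiv ℝ φ p v) -
      (m p • hz v + fderiv ℝ m p v • hz p) := fun {p} a v => by
    simpa using fd_line (cd a) ((hd_L hz (hd_of a.sm.contDiffAt v)).sub ((hd_of (cm a) v).smul
      (hd_L hz (hd_line p v))))
  have dΦ : ∀ {p}, LH φ p → ∀ v, fderiv ℝ Φ p v =
      (cf φ p - 1) * dt (fderiv ℝ C p v) - 4 * th (d p) (fderiv ℝ C p v) := fun {p} a v => by
    rw [fd_line (cΦ a) (((hd_L dt (hd_of a.sm.contDiffAt v)).sub (hd_L dt (hd_line p v))).add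
      ((hd_th (hd_of (cC a) v) (hd_of (cd a) v)).const_mul 2)), dC a, dd a]
    have e := (cf_spec a).2 v
    have n : m p ^ 2 = cf φ p := Real.sq_sqrt (cf_spec a).1.le
    have a1 := th_anti (fderiv ℝ φ p v) (φ p)
    have a2 := th_anti (fderiv ℝ φ p v) p
    have a3 := th_anti v (φ p)
    have a4 := th_anti v p
    have a5 := th_anti p (φ p)
    simp only [aH_eq, C, d, zero_smul, add_zero, map_add, map_smul, dt_hz, dt_et, th_add, th_add',
      th_sub, th_sub', th_smul, th_smul', th_et, th_et', th_hz, th_hz', th_self, smul_eq_mul,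
      a1, a2, a3, a4, a5] at e ⊢
    linear_combination e - 2 * th p v * n
  have a0 := h.self_of_nhds
  have m0 : m 0 = 1 := by simp [m, h1]
  have C0 : C 0 = 0 := by simp [C, h0]
  have d0 : d 0 = 0 := by simp [d, h0]
  have e0 : ∀ v, fderiv ℝ C 0 (hz v) = hz v := fun v => by
    rw [dC a0, h2, m0, hz_hz, dt_hz, map_zero]; module
  have lC := LD_open (h.mono fun _ => cC) ((injective_iff_map_eq_zero _).2 fun v hv => by
    have : dt v = 0 := by simpa [dC a0, dt_hz, dt_et] using congrArg dt hv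
    rwa [← hz_of this, e0, hz_of this] at hv)
  obtain ⟨g, g1, g2, g3⟩ := lC.self_of_nhds.inv
  rw [C0] at g1 g3
  have g0 : g 0 = 0 := by simpa [C0] using g2.self_of_nhds
  have tg : Tendsto g (𝓝 0) (𝓝 0) := by simpa [g0] using g1.continuousAt.tendsto
  have tC : Tendsto C (𝓝 0) (𝓝 0) := by simpa [C0] using (cC a0).continuousAt.tendsto
  let F : H → ℝ := fun q => Φ (g q)
  have key : ∀ᶠ p in 𝓝 0, ContDiffAt ℝ ∞ F (C p) ∧ (∀ w, fderiv ℝ F (C p) w =
      (cf φ p - 1) * dt w - 4 * th (d p) w) ∧ AA (jt F (C p)) = p ∧ BB (jt F (C p)) = φ p := by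
    filter_upwards [h, lC, g2.eventually_nhds] with p a b c
    have c1 : ContDiffAt ℝ ∞ F (C p) :=
      ContDiffAt.comp (g := Φ) _ (c.self_of_nhds.symm ▸ cΦ a) (b.symm c).sm.contDiffAt
    have c2 : ∀ w, fderiv ℝ F (C p) w = (cf φ p - 1) * dt w - 4 * th (d p) w := fun w => by
      obtain ⟨v, rfl⟩ := LinearMap.surjective_of_injective (f := (fderiv ℝ C p).toLinearMap)
        (LD_fd_inj b) w
      refine Eq.trans ?_ (dΦ a v)
      rw [← EventuallyEq.fderiv_eq (f₁ := F ∘ C) (c.mono fun q hq => congrArg Φ hq),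
        fderiv_comp _ (cd_diff c1) (cd_diff (cC a))]
      rfl
    obtain ⟨j1, j2⟩ := jet_eq (by simp [d, dt_hz]) c2
    have m1 : m p ≠ 0 := (Real.sqrt_pos.2 (cf_spec a).1).ne'
    refine ⟨c1, c2, ?_⟩
    simp only [AA, BB, jt, nu', j1, j2, add_sub_cancel, F, c.self_of_nhds, Φ]
    change (m p)⁻¹ • _ + _ = _ ∧ _
    simp only [C, d, map_add, map_smul, hz_hz, hz_et, dt_hz, dt_et, smul_eq_mul]
    simp only [hz_apply]
    constructor <;> match_scalars <;> field_simp <;> ring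
  have cF : ∀ᶠ q in 𝓝 0, ContDiffAt ℝ ∞ F q := by
    filter_upwards [tg.eventually key, g3] with q a b using b ▸ a.1
  obtain ⟨l, l0, hl⟩ := resc cF (by simp [F, g0, Φ, h0, C0, th])
    (ContinuousLinearMap.ext fun w => by
      simpa [C0, h1, d0, th_zero] using key.self_of_nhds.2.1 w) (fun v w => by
      have k1 := hd_L (ContinuousLinearMap.apply ℝ ℝ (hz w))
        (hd_of ((cd_fd (C0.symm ▸ cF.self_of_nhds)).comp 0 (cC a0)) (hz v))
      have k2 := (hd_th (hd_of (cd a0) (hz v)) (hasDerivAt_const (0 : ℝ) (hz w))).const_mul (-4)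
      have := k1.unique (k2.congr_of_eventuallyEq (((tl0 _).eventually key).mono fun s hs => by
        simpa [dt_hz] using hs.2.1 (hz w)))
      rw [fderiv_comp _ (cd_diff (cd_fd (C0.symm ▸ cF.self_of_nhds))) (cd_diff (cC a0))] at this
      simpa [e0, C0, dd a0, h2, m0, hz_hz, d0, th_zero] using this) η0
  have i1 := dl_inv l0.ne'
  have i2 : ∀ p, dl l⁻¹ (dl l p) = p := by simpa using dl_inv (inv_pos.2 l0).ne'
  have k := hη _ (fun p => dl l⁻¹ (φ (dl l p))) (fun p => dl l⁻¹ (C (dl l p))) hl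
    ((tz _).comp (tC.comp (tz _))) (by
      filter_upwards [(tz (dl l)).eventually key] with p hp
      obtain ⟨k1, k2⟩ := jt_dl l0.ne' (q := dl l⁻¹ (C (dl l p))) (by rw [i1]; exact hp.1)
      rw [i1] at k1 k2
      exact ⟨by rw [← i2 (AA _), k1, hp.2.2.1, i2], by rw [← i2 (BB _), k2, hp.2.2.2]⟩)
  refine (xt_dl (inv_pos.2 l0)).cancel ((k.comp (xt_dl (inv_pos.2 l0)) (tz _)).congr
    (.of_forall fun p => by simp only [i1])) ?_
  simpa [h0] using a0.cont.tendsto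

theorem sy {φ : H → H} (h : ∀ᶠ p in 𝓝 0, LH φ p) (h0 : φ 0 = 0) (v w : H) :
    th (fderiv ℝ φ 0 (hz v)) (fderiv ℝ φ 0 (hz w)) = cf φ 0 * th v w := by
  have c := h.self_of_nhds.sm.contDiffAt
  have k : ∀ v w, dt (fderiv ℝ (fderiv ℝ φ) 0 (hz v) (hz w)) +
      2 * th (fderiv ℝ φ 0 (hz v)) (fderiv ℝ φ 0 (hz w)) = cf φ 0 * (2 * th v w) := fun v w => by
    have k1 := hd_L (ContinuousLinearMap.apply ℝ H (hz w)) (hd_of (cd_fd c) (hz v))
    have k2 := (hd_L dt k1).add ((hd_th (hd_of c (hz v)) k1).const_mul 2)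
    have k3 := (hd_of (cd_cf c) (hz v)).mul
      ((hd_th (hd_line 0 (hz v)) (hasDerivAt_const (0 : ℝ) (hz w))).const_mul 2)
    have := k2.unique (k3.congr_of_eventuallyEq (((tl0 _).eventually h).mono fun s hs => by
      simpa [aH_eq, dt_hz] using (cf_spec hs).2 (hz w)))
    simpa [h0, th_zero, th_hz, th_hz'] using this
  have s := c.isSymmSndFDerivAt (by simpa using WithTop.coe_le_coe.2 (le_top (a := (2 : ℕ∞))))
    (hz v) (hz w)
  have k1 := k v w
  have k2 := k w v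
  rw [← s, th_anti, th_anti w v] at k2
  linarith

/-- All germs with the derivative `L` extend. -/
def PP (L : H →L[ℝ] H) : Prop :=
  ∀ φ : H → H, (∀ᶠ p in 𝓝 0, LH φ p) → φ 0 = 0 → fderiv ℝ φ 0 = L → Xt aS φ

theorem PP.of {T L : H →L[ℝ] H} (hT : Xt aS T) (h : PP (T.comp L)) : PP L := fun φ a b c => by
  have t : Tendsto φ (𝓝 0) (𝓝 0) := by simpa [b] using a.self_of_nhds.cont.tendsto
  refine hT.cancel (h _ ?_ (by simp [b]) ?_) t
  · filter_upwards [a, t.eventually hT.lh] with p k1 k2 using k2.comp k1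
  · exact c ▸ (T.hasFDerivAt.comp 0 (cd_diff a.self_of_nhds.sm.contDiffAt).hasFDerivAt).fderiv

/-- Symplectic on the horizontal space. -/
def Sy (L : H →L[ℝ] H) : Prop :=
  (∀ v, dt (L v) = dt v) ∧ ∀ v w, dt v = 0 → dt w = 0 → th (L v) (L w) = th v w

theorem mv1 {L : H →L[ℝ] H} (h : Sy L) {u y : H} (hu : dt u = 0) (hy : dt y = 0)
    (k : th y (L u) ≠ 0) : ∃ L', Sy L' ∧ (PP L' → PP L) ∧ L' u = y ∧
      ∀ w, th y (L w) = th (L u) (L w) → L' w = L w := by
  have a : dt (y - L u) = 0 := by simp [h.1, hu, hy]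
  refine ⟨(Tr ((th y (L u))⁻¹ • tl (y - L u)) (y - L u)).comp L, ⟨fun v => ?_, fun v w b c => ?_⟩,
    PP.of (xt_tv a _), ?_, fun w b => ?_⟩
  · rw [ContinuousLinearMap.comp_apply, Tr_apply, map_add, map_smul, a, h.1]; simp
  · rw [← h.2 v w b c]
    generalize y - L u = a
    simp only [ContinuousLinearMap.comp_apply, Tr_apply, smul_apply, tl_apply, th_add, th_add',
      th_smul, th_smul', th_self, th_anti (L v) a, smul_eq_mul]
    ring
  · simp [Tr_apply, tl_apply, th_sub, th_self, k]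
  · simp [Tr_apply, tl_apply, th_sub, b]

theorem mv2 {L : H →L[ℝ] H} (h : Sy L) {u y z : H} (hu : dt u = 0) (hy : dt y = 0) (hz : dt z = 0)
    (k : th z (L u) ≠ 0) (k' : th y z ≠ 0) : ∃ L', Sy L' ∧ (PP L' → PP L) ∧ L' u = y ∧
      ∀ w, L w = w → th z w = th (L u) w → th y w = th z w → L' w = w := by
  obtain ⟨L₁, a1, a2, a3, a4⟩ := mv1 h hu hz k
  obtain ⟨L₂, b1, b2, b3, b4⟩ := mv1 a1 hu hy (a3.symm ▸ k')
  refine ⟨L₂, b1, fun c => a2 (b2 c), b3, fun w c1 c2 c3 => ?_⟩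
  have := (a4 w (c1.symm ▸ c2)).trans c1
  rw [b4 w (by rw [this, a3, c3]), this]

/-- Multiplication by `i`. -/
def ii (p : H) : H := (I * p.1, I * p.2.1, 0)

theorem th_ii (p : H) : th (ii p) p = -rho p := by simp [th, ii, rho, normSq_apply]; ring

theorem mid {x y : H} (hx : rho x ≠ 0) (hy : rho y ≠ 0) :
    ∃ a b : ℝ, th (a • ii x + b • ii y) x ≠ 0 ∧ th y (a • ii x + b • ii y) ≠ 0 := by
  simp only [th_add, th_add', th_smul, th_smul', th_ii, th_anti y (ii y)]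
  by_cases a : th y (ii x) = 0
  · by_cases b : th (ii y) x = 0
    · exact ⟨1, 1, by simpa [b], by simpa [a]⟩
    · exact ⟨0, 1, by simpa, by simpa⟩
  · exact ⟨1, 0, by simpa, by simpa⟩

theorem mv3 {L : H →L[ℝ] H} (h : Sy L) {u v : H} (hu : dt u = 0) (hv : dt v = 0) (k : th u v = 1) :
    ∃ L', Sy L' ∧ (PP L' → PP L) ∧ L' u = u ∧ L' v = v ∧ ∀ w, L w = w → dt w = 0 →
      th u w = 0 → th v w = 0 → th (ii u) w = 0 → th (ii (L u)) w = 0 → L' w = w := by
  have r : ∀ {x y : H}, th x y = 1 → rho x ≠ 0 := fun {x y} a b => by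
    have := normSq_nonneg x.1
    have := normSq_nonneg x.2.1
    rw [rho] at b
    simp [th, normSq_eq_zero.1 (by linarith : normSq x.1 = 0),
      normSq_eq_zero.1 (by linarith : normSq x.2.1 = 0)] at a
  obtain ⟨a, b, c1, c2⟩ := mid (r ((h.2 u v hu hv).trans k)) (r k)
  obtain ⟨L₁, a1, a2, a3, a4⟩ := mv2 h hu hu (by simp [ii, dt_apply]) c1 c2
  have e : th u (L₁ v) = 1 := by rw [← k, ← a1.2 u v hu hv, a3]
  obtain ⟨s, s1, s2⟩ : ∃ s : ℝ, s ≠ 0 ∧ th v (L₁ v) - s ≠ 0 := by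
    by_cases c : th v (L₁ v) = 1
    · exact ⟨2, by norm_num, by norm_num [c]⟩
    · exact ⟨1, by norm_num, sub_ne_zero.2 c⟩
  obtain ⟨L₂, b1, b2, b3, b4⟩ := mv2 a1 hv hv (z := L₁ v + s • u) (by simp [a1.1, hu, hv])
    (by simpa [th_add, th_smul, th_self, e]) (by
      rwa [th_add', th_smul', th_anti v u, k, mul_neg_one])
  refine ⟨L₂, b1, fun c => a2 (b2 c), b4 u a3 (by simp [th_add, th_smul, th_self]) ?_, b3,
    fun w d1 d2 d3 d4 d5 d6 => ?_⟩
  · rw [th_add, th_smul, th_self, th_anti v, th_anti (L₁ v), k, e]; simp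
  · have e1 : th (L u) w = 0 := by rw [← d3, ← h.2 u w hu d2, d1]
    have e2 := a4 w d1 (by simp [th_add, th_smul, d5, d6, e1]) (by simp [th_add, th_smul, d3, d5, d6])
    have e3 : th (L₁ v) w = 0 := by rw [← d4, ← a1.2 v w hv d2, e2]
    exact b4 w e2 (by simp [th_add, th_smul, d3]) (by simp [th_add, th_smul, d3, d4, e3])

theorem Sy.pp {L : H →L[ℝ] H} (h : Sy L) : PP L := by
  obtain ⟨L₁, a1, a2, a3, a4, -⟩ := mv3 h (u := (1, 0, 0)) (v := (I, 0, 0)) rfl rfl (by simp [th])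
  obtain ⟨L₂, b1, b2, b3, b4, b5⟩ := mv3 a1 (u := (0, 1, 0)) (v := (0, I, 0)) rfl rfl (by simp [th])
  have e : (L₁ (0, 1, 0)).1 = 0 := by
    have k1 := a1.2 (1, 0, 0) (0, 1, 0) rfl rfl
    have k2 := a1.2 (I, 0, 0) (0, 1, 0) rfl rfl
    rw [a3] at k1
    rw [a4] at k2
    exact Complex.ext (by simpa [th] using k2) (by simpa [th] using k1)
  have c1 := b5 _ a3 rfl (by simp [th]) (by simp [th]) (by simp [th, ii]) (by simp [th, ii, e])
  have c2 := b5 _ a4 rfl (by simp [th]) (by simp [th]) (by simp [th, ii]) (by simp [th, ii, e])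
  refine a2 (b2 fun φ k1 k2 k3 => germ1 k1 k2 ?_ fun v => ?_)
  · rw [cf, k2, k3, aH_eq, b1.1, th_zero, dt_et]; simp
  · have : hz v = v.1.re • ((1, 0, 0) : H) + v.1.im • ((I, 0, 0) : H) +
        v.2.1.re • ((0, 1, 0) : H) + v.2.1.im • ((0, I, 0) : H) := by
      simp [hz_apply, et, dt_apply, Prod.ext_iff]
    rw [k3, this]
    simp only [map_add, map_smul, c1, c2, b3, b4]

theorem germC (φ : H → H) (h : ∀ᶠ p in 𝓝 0, LH φ p) (h0 : φ 0 = 0) : Xt aS φ := by
  obtain ⟨c0, hc⟩ := cf_spec h.self_of_nhds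
  have m0 := Real.sqrt_pos.2 c0
  have n := Real.sq_sqrt c0.le
  refine PP.of (xt_dl (inv_pos.2 m0)) (Sy.pp ⟨fun v => ?_, fun v w a b => ?_⟩) φ h h0 rfl
  · have := hc v
    simp only [h0, aH_eq, th_zero, mul_zero, add_zero] at this
    rw [ContinuousLinearMap.comp_apply, dt_dl, this, inv_pow, n, inv_mul_cancel_left₀ c0.ne']
  · have := sy h h0 v w
    rw [hz_of a, hz_of b] at this
    rw [ContinuousLinearMap.comp_apply, ContinuousLinearMap.comp_apply, th_dl, th_anti, th_dl,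
      th_anti, this]
    field_simp
    rw [n]

end
end Pool.Agent.Lib.MP_efe47c_gt.V
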