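import Pool.Agent.Lib.MP_efe47c_gt.V.Conv
import Pool.Agent.Lib.MP_efe47c_gt.V.Ct

/-! The partner of a form on the sphere which is standard off a point. -/

namespace Pool.Agent.Lib.MP_efe47c_gt.V
open Set Filter Topology Metric Function Complex
open scoped ContDiff Manifold

noncomputable section

variable {M N : Type} [TopologicalSpace M] [ChartedSpace R5 M] [TopologicalSpace N]
  [ChartedSpace R5 N]

theorem std_iff {α : Form R5 M} : Std α ↔ ∃ F : M ≃ S5, ∀ m, LD (fn α) aS F m := by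
  constructor
  · rintro ⟨g, s, t, h⟩
    exact ⟨Equiv.ofBijective g (bijOn_univ.1 (s ▸ t ▸ g.bijOn)), fun m => h.ld (s ▸ trivial)⟩
  · rintro ⟨F, h⟩
    have : Nonempty M := ⟨F.symm (pole U0)⟩
    obtain ⟨g, s, t, -, k⟩ := exists_pd (α := α) (β := std) isOpen_univ F.bijective.bijOn_univ
      fun m _ => h m
    exact ⟨g, s, t, k⟩

theorem transport {α : Form R5 M} {β : Form R5 N} {β' : Form R5 S5} (h : IsSum α β std)
    (Φ : N ≃ S5) (l : ∀ q, LD (fn β) (fn β') Φ q) : IsSum α β' std := by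
  obtain ⟨ε, e0, e1, e₁, j₁, e₂, j₂, h₁, ⟨a1, a2, a3, a4⟩, cov, ov⟩ := h
  have : Nonempty S5 := ⟨pole U0⟩
  have l' := LD_symm l
  obtain ⟨e, s1, -, c1, k1⟩ := exists_pd (α := std) (β := β') (f := fun p => Φ (e₂ p))
    e₂.open_source (Φ.injective.comp_injOn e₂.injOn).bijOn_image
    fun p hp => LD.comp (g := Φ) (l _) (a1.ld hp)
  obtain ⟨j, s2, t2, c2, k2⟩ := exists_pd (α := β') (β := std) (f := fun p => j₂ (Φ.symm p))
    (U := Φ.symm ⁻¹' j₂.source)
    (j₂.open_source.preimage (continuous_iff_continuousAt.2 fun p => (l' p).cont))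
    (j₂.bijOn.comp (Φ.symm.bijective.bijOn_preimage))
    fun p hp => LD.comp (g := j₂) (a2.ld hp) (l' p)
  refine ⟨ε, e0, e1, e₁, j₁, e, j, h₁, ⟨k1, k2, s1.trans a3, ?_⟩, t2 ▸ cov, fun x hx y hy => ?_⟩
  · rw [s2, a4, c1, preimage_compl, ← Φ.image_eq_preimage_symm, image_image]
  · rw [s2] at hy
    rw [c1, c2]
    simp only [ov x hx _ hy, Equiv.symm_apply_eq]

theorem partner {α : Form R5 S5} (h : Off α) {N : Type} [TopologicalSpace N] (ν : N ≃ₜ S5) :
    ∃ β : Form R5 S5, IsSum α β std ∧ (Std β → Std α) := by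
  obtain ⟨cs, -, β, e, n, f, hs, ns, he, lf, l1, l2⟩ := conv h ν
  have le : ∀ᶠ p in 𝓝 n, LD aS (fn α) e p :=
    mem_of_superset (e.open_source.mem_nhds ns) fun p hp => he.ld hp
  obtain ⟨E, E1, E2⟩ := sphere_germ hk0 germ0 (le.mono fun p hp => LD_zero hp)
  let Φ : N ≃ S5 := ν.toEquiv.trans ((Equiv.neg S5).trans (E.trans f.toEquiv))
  have t : Tendsto (fun q => -ν q) (𝓝 (ν.symm (-n))) (𝓝 n) :=
    ν.continuous.neg.tendsto' _ _ (by simp)
  have lΦ : ∀ q, LD (z0 N R5) zS Φ q := fun q => by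
    by_cases a : ν q = -n
    · obtain rfl : q = ν.symm (-n) := by rw [← a, ν.symm_apply_apply]
      exact (LD_zero l2.self_of_nhds).congr ((t.eventually E2).mono fun y hy => congrArg f hy)
    · have k := LD.comp (g := E) (E1 _) ((LD_zero (LD_neg _)).comp (LD_zero (l1 q a)))
      refine LD.comp (g := f) (LD_zero (lf _ fun b => a ?_)) k
      exact neg_eq_iff_eq_neg.1 (E.injective (b.trans E2.self_of_nhds.symm))
  let β' : Form R5 S5 := fun p => (β (Φ.symm p)).comp (mfderiv 𝓘(ℝ, R5) 𝓘(ℝ, R5) Φ.symm p)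
  have l : ∀ q, LD (fn β) (fn β') Φ q := fun q =>
    (LD_pull (γ := fn β) (δ := fn β') (LD_symm lΦ (Φ q)) one_pos fun v => (one_mul _).symm).symm'
      (.of_forall Φ.apply_symm_apply) (Φ.symm_apply_apply q)
  refine ⟨β', transport hs Φ l, fun k => ?_⟩
  obtain ⟨F', hF'⟩ := std_iff.1 k
  let F := Φ.trans F'
  have hF : ∀ q, LD (fn β) aS F q := fun q => (hF' _).comp (l q)
  let u : S5 → N := fun z => ν.symm (-e.invFun (f.symm z))
  have en : e.invFun (e n) = n := e.left_inv ns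
  have u0 : u (f (e n)) = ν.symm (-n) := by simp only [u, f.symm_apply_apply, en]
  have u1 : ∀ᶠ q in 𝓝 (ν.symm (-n)), u (f (e (-ν q))) = q :=
    (t.eventually (e.open_source.mem_nhds ns)).mono fun q hq => by
      simp only [u, f.symm_apply_apply]
      rw [show e.invFun (e (-ν q)) = _ from e.left_inv hq, neg_neg, ν.symm_apply_apply]
  have lu : ∀ᶠ z in 𝓝 (f (e n)), LD aS (fn β) u z := by
    have := l2.self_of_nhds.image_mem (l2.and u1.eventually_nhds)
    simp only [ν.apply_symm_apply, neg_neg] at this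
    filter_upwards [this]
    rintro _ ⟨q, hq, rfl⟩
    exact hq.1.symm hq.2
  obtain ⟨S, S1, S2⟩ := sphere_germ (fun _ => LD_kap) germC (s := fun z => F (u z))
    (lu.mono fun z hz => (hF _).comp hz)
  refine std_iff.2 ⟨f.toEquiv.trans (S.trans (F.symm.trans ν.toEquiv)), fun m => ?_⟩
  by_cases a : m = e n
  · subst a
    have k := le.self_of_nhds.symm (g := e.invFun)
      (mem_of_superset (e.open_source.mem_nhds ns) fun p hp => e.left_inv hp)
    refine (LD.comp (g := fun p : S5 => -p) (LD_neg _) k).congr ?_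
    filter_upwards [(f.continuous.tendsto _).eventually S2] with m hm
    change ν (F.symm (S (f m))) = _
    rw [hm, F.symm_apply_apply]
    simp [u]
  · have k := LD.comp (g := F.symm) (LD_symm hF _) ((S1 _).comp (lf m a))
    refine LD.comp (g := ν) (l1 _ fun b => a (f.injective (S.injective ?_))) k
    rw [show S (f (e n)) = F (u (f (e n))) from S2.self_of_nhds, u0, ← b, ν.symm_apply_apply,
      F.apply_symm_apply]
    rfl

theorem exact_form {α : Form R5 S5} (h : ¬Std α) :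
    (∃ β : Form R5 S5, ¬Std β ∧ IsSum α β std) ↔ Off α := by
  constructor
  · rintro ⟨β, -, ε, e0, e1, _, _, _, _, k, -⟩
    exact off_of_top (C.piece_top e0 e1 k)
  · intro k
    obtain ⟨β, k1, k2⟩ := partner k (Homeomorph.refl S5)
    exact ⟨β, mt k2 h, k1⟩

end
end Pool.Agent.Lib.MP_efe47c_gt.V
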