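import Pool.Agent.Lib.MP_efe47c_gt.V.Gl

/-! Generating functions of contact maps of the Heisenberg group. -/

namespace Pool.Agent.Lib.MP_efe47c_gt.V
open Set Filter Topology Metric Function Complex
open scoped ContDiff Manifold ComplexConjugate

noncomputable section

theorem th_add (a b v : H) : th (a + b) v = th a v + th b v := by simp [th]; ring
theorem th_add' (a b v : H) : th v (a + b) = th v a + th v b := by simp [th]; ring
theorem th_sub (a b v : H) : th (a - b) v = th a v - th b v := by simp [th]; ring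
theorem th_sub' (a b v : H) : th v (a - b) = th v a - th v b := by simp [th]; ring
theorem th_smul (s : ℝ) (a v : H) : th (s • a) v = s * th a v := by simp [th]; ring
theorem th_smul' (s : ℝ) (a v : H) : th v (s • a) = s * th v a := by simp [th]; ring
theorem th_anti (a v : H) : th a v = -th v a := by simp [th]; ring
theorem th_self (a : H) : th a a = 0 := by simp [th]; ring
theorem th_et (a : H) : th et a = 0 := by simp [th, et]
theorem th_et' (a : H) : th a et = 0 := by simp [th, et]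
theorem th_zero (a : H) : th 0 a = 0 := by simp [th]
theorem dt_et : dt et = 1 := rfl
theorem aH_eq (p v : H) : aH p v = dt v + 2 * th p v := rfl

/-- The horizontal part. -/
def hz : H →L[ℝ] H := .id ℝ H - dt.smulRight et

theorem hz_apply (p : H) : hz p = p - dt p • et := rfl
theorem dt_hz (p : H) : dt (hz p) = 0 := by simp [hz_apply, dt_et]
theorem th_hz (a v : H) : th (hz a) v = th a v := by simp [hz_apply, th_sub, th_smul, th_et]
theorem th_hz' (a v : H) : th v (hz a) = th v a := by simp [hz_apply, th_sub', th_smul', th_et']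
theorem hz_et : hz et = 0 := by simp [hz_apply, dt_et]
theorem hz_of {p : H} (h : dt p = 0) : hz p = p := by simp [hz_apply, h]
theorem hz_hz (p : H) : hz (hz p) = hz p := hz_of (dt_hz p)
theorem hz_add (p : H) : hz p + dt p • et = p := sub_add_cancel _ _

theorem cd_th2 {X : Type} [NormedAddCommGroup X] [NormedSpace ℝ X] {f g : X → H} {x : X}
    (h : ContDiffAt ℝ ∞ f x) (k : ContDiffAt ℝ ∞ g x) :
    ContDiffAt ℝ ∞ (fun y => th (f y) (g y)) x :=
  (cd_im ((cd_conj h.fst).mul k.fst)).add (cd_im ((cd_conj h.snd.fst).mul k.snd.fst))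

theorem hd_th {f g : ℝ → H} {a b : H} {s : ℝ} (h : HasDerivAt f a s) (k : HasDerivAt g b s) :
    HasDerivAt (fun y => th (f y) (g y)) (th a (g s) + th (f s) b) s := by
  refine ((hd_im ((hd_conj h.fst).mul k.fst)).add
    (hd_im ((hd_conj h.snd.fst).mul k.snd.fst))).congr_deriv ?_
  simp [th]; ring

theorem hd_of {X Y : Type} [NormedAddCommGroup X] [NormedSpace ℝ X] [NormedAddCommGroup Y]
    [NormedSpace ℝ Y] {f : X → Y} {p : X} (h : ContDiffAt ℝ ∞ f p) (v : X) :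
    HasDerivAt (fun s : ℝ => f (p + s • v)) (fderiv ℝ f p v) 0 :=
  (cd_diff h).hasFDerivAt.hasLineDerivAt v

theorem hd_L {X Y : Type} [NormedAddCommGroup X] [NormedSpace ℝ X] [NormedAddCommGroup Y]
    [NormedSpace ℝ Y] (L : X →L[ℝ] Y) {f : ℝ → X} {a : X} {s : ℝ} (h : HasDerivAt f a s) :
    HasDerivAt (fun y => L (f y)) (L a) s := L.hasFDerivAt.comp_hasDerivAt s h

theorem cd_L {X Y Z : Type} [NormedAddCommGroup X] [NormedSpace ℝ X] [NormedAddCommGroup Y]
    [NormedSpace ℝ Y] [NormedAddCommGroup Z] [NormedSpace ℝ Z] (L : Y →L[ℝ] Z) {f : X → Y} {x : X}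
    (h : ContDiffAt ℝ ∞ f x) : ContDiffAt ℝ ∞ (fun y => L (f y)) x := L.contDiff.contDiffAt.comp x h

theorem cd_fd {X Y : Type} [NormedAddCommGroup X] [NormedSpace ℝ X] [NormedAddCommGroup Y]
    [NormedSpace ℝ Y] {f : X → Y} {p : X} (h : ContDiffAt ℝ ∞ f p) :
    ContDiffAt ℝ ∞ (fderiv ℝ f) p := h.fderiv_right le_rfl

abbrev J := H →L[ℝ] ℝ

/-- The horizontal vector dual to a covector. -/
def dj : J →L[ℝ] H :=
  (ContinuousLinearMap.apply ℝ ℝ ((1, 0, 0) : H)).smulRight ((I / 4, 0, 0) : H) +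
  (ContinuousLinearMap.apply ℝ ℝ ((I, 0, 0) : H)).smulRight ((-1 / 4, 0, 0) : H) +
  (ContinuousLinearMap.apply ℝ ℝ ((0, 1, 0) : H)).smulRight ((0, I / 4, 0) : H) +
  (ContinuousLinearMap.apply ℝ ℝ ((0, I, 0) : H)).smulRight ((0, -1 / 4, 0) : H)

theorem dt_dj (j : J) : dt (dj j) = 0 := by simp [dj, dt_apply]

theorem jet (j : J) (v : H) : j v = j et * dt v - 4 * th (dj j) v := by
  have : v = v.1.re • ((1, 0, 0) : H) + v.1.im • ((I, 0, 0) : H) + v.2.1.re • ((0, 1, 0) : H) +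
      v.2.1.im • ((0, I, 0) : H) + v.2.2 • et := by simp [et]
  conv_lhs => rw [this]
  simp only [map_add, map_smul, smul_eq_mul]
  simp [dj, th, dt_apply, map_ofNat]
  ring

theorem jet_eq {j : J} {k : ℝ} {d : H} (h0 : dt d = 0) (h : ∀ v, j v = k * dt v - 4 * th d v) :
    dj j = d ∧ j et = k := by
  refine ⟨?_, by simp [h, dt_et, th_et']⟩
  have : d.2.2 = 0 := h0
  simp [dj, h, th, dt_apply, Prod.ext_iff, Complex.ext_iff, this]
  refine ⟨⟨?_, ?_⟩, ?_, ?_⟩ <;> ring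

def nu' (j : J) : ℝ := (√(1 + j et))⁻¹

def AA (z : H × ℝ × J) : H := nu' z.2.2 • (hz z.1 - (1 / 2 : ℝ) • dj z.2.2) + dt z.1 • et

def BB (z : H × ℝ × J) : H := z.1 + (1 / 2 : ℝ) • dj z.2.2 + (z.2.1 - 2 * th z.1 (dj z.2.2)) • et

theorem AA_zero (p : H) : AA (p, 0) = p := by simp [AA, nu', hz_add]
theorem BB_zero (p : H) : BB (p, 0) = p := by simp [BB, th]

theorem cd_nu {j : J} (h : 0 < 1 + j et) : ContDiffAt ℝ ∞ nu' j :=
  ((contDiffAt_const.add (cd_L (ContinuousLinearMap.apply ℝ ℝ et) contDiffAt_id)).sqrt h.ne').inv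
    (Real.sqrt_pos.2 h).ne'

theorem cd_AA {z : H × ℝ × J} (h : 0 < 1 + z.2.2 et) : ContDiffAt ℝ ∞ AA z :=
  ((ContDiffAt.comp (g := nu') (f := fun z : H × ℝ × J => z.2.2) z (cd_nu h)
    contDiffAt_snd.snd).smul ((cd_L hz contDiffAt_fst).sub
    ((cd_L dj contDiffAt_snd.snd).const_smul _))).add ((cd_L dt contDiffAt_fst).smul contDiffAt_const)

theorem cd_BB (z : H × ℝ × J) : ContDiffAt ℝ ∞ BB z :=
  (contDiffAt_fst.add ((cd_L dj contDiffAt_snd.snd).const_smul _)).add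
    ((contDiffAt_snd.fst.sub (contDiffAt_const.mul
      (cd_th2 contDiffAt_fst (cd_L dj contDiffAt_snd.snd)))).smul contDiffAt_const)

/-- The first jet. -/
def jt (F : H → ℝ) (q : H) : H × ℝ × J := (q, F q, fderiv ℝ F q)

theorem gen_id {F : H → ℝ} {p : H} (hF : ContDiffAt ℝ ∞ F p) (pos : 0 < 1 + fderiv ℝ F p et)
    (v : H) : aH (BB (jt F p)) (fderiv ℝ (fun q => BB (jt F q)) p v) =
      (1 + fderiv ℝ F p et) * aH (AA (jt F p)) (fderiv ℝ (fun q => AA (jt F q)) p v) := by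
  have cj : ContDiffAt ℝ ∞ (jt F) p := contDiffAt_id.prodMk (hF.prodMk (cd_fd hF))
  have d1 := hd_L dj (hd_of (cd_fd hF) v)
  have d2 := hd_of ((cd_nu pos).comp p (cd_fd hF)) v
  have e1 : fderiv ℝ (fun q => AA (jt F q)) p v = _ := fd_line ((cd_AA pos).comp p cj)
    ((d2.smul ((hd_L hz (hd_line p v)).sub (d1.const_smul (1 / 2 : ℝ)))).add
      ((hd_L dt (hd_line p v)).smul_const et))
  have e2 : fderiv ℝ (fun q => BB (jt F q)) p v = _ := fd_line ((cd_BB _).comp p cj)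
    (((hd_line p v).add (d1.const_smul (1 / 2 : ℝ))).add (((hd_of hF v).sub
      ((hd_th (hd_line p v) d1).const_mul 2)).smul_const et))
  have n : nu' (fderiv ℝ F p) ^ 2 * (1 + fderiv ℝ F p et) = 1 := by
    rw [nu', inv_pow, Real.sq_sqrt pos.le, inv_mul_cancel₀ pos.ne']
  rw [e1, e2]
  have a1 := th_anti v (dj (fderiv ℝ F p))
  have a2 := th_anti p (dj (fderiv ℝ F p))
  have a3 := jet (fderiv ℝ F p) v
  simp only [aH_eq, AA, BB, jt, zero_smul, add_zero, comp_apply, Pi.sub_apply, Pi.smul_apply,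
    map_add, map_smul, map_sub, dt_dj, dt_hz, dt_et, th_add, th_add', th_sub, th_sub', th_smul,
    th_smul', th_et, th_et', th_hz, th_hz', th_self, smul_eq_mul]
  rw [a1, a2, a3]
  linear_combination (-2 * (th p v - 1 / 2 * th p (dj (fderiv ℝ (fderiv ℝ F) p v)) - 1 / 2 *
    (th (dj (fderiv ℝ F p)) v - 1 / 2 * th (dj (fderiv ℝ F p)) (dj (fderiv ℝ (fderiv ℝ F) p v))))) * n

/-- Small functions. -/
def Sml (η : ℝ) (F : H → ℝ) : Prop :=
  (∀ p ∈ ball (0 : H) 3, ContDiffAt ℝ ∞ F p) ∧ ∀ p ∈ closedBall (0 : H) 2,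
    ‖F p‖ < η ∧ ‖fderiv ℝ F p‖ < η ∧ ‖fderiv ℝ (fderiv ℝ F) p‖ < η

theorem gen : ∃ η, 0 < η ∧ ∀ (F : H → ℝ) (φ C : H → H), Sml η F → Tendsto C (𝓝 0) (𝓝 0) →
    (∀ᶠ p in 𝓝 0, AA (jt F (C p)) = p ∧ BB (jt F (C p)) = φ p) → Xt aS φ := by
  let Λ : H × ℝ × J → H × ℝ × J := fun z =>
    (z.1, chi z.1 * z.2.1, chi z.1 • z.2.2 + z.2.1 • fderiv ℝ chi z.1)
  have c0 : ∀ z : H × ℝ × J, ContDiffAt ℝ ∞ (fun z : H × ℝ × J => chi z.1) z := fun z =>
    chi.contDiffAt.comp z contDiffAt_fst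
  have cΛ : ∀ z, ContDiffAt ℝ ∞ Λ z := fun z => contDiffAt_fst.prodMk
    (((c0 z).mul contDiffAt_snd.fst).prodMk (((c0 z).smul contDiffAt_snd.snd).add
      (contDiffAt_snd.fst.smul ((cd_fd chi.contDiffAt).comp z contDiffAt_fst))))
  have Λ0 : ∀ p, Λ (p, 0) = (p, 0) := fun p => by simp [Λ]
  have ps : ∀ p, ∀ᶠ z in 𝓝 (p, (0 : ℝ × J)), 0 < 1 + (Λ z).2.2 et := fun p =>
    continuousAt_const.eventually_lt (continuousAt_const.add
      (cd_L (ContinuousLinearMap.apply ℝ ℝ et) (cΛ _).snd.snd).continuousAt) (by simp [Λ0])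
  obtain ⟨a, a0, ha⟩ := small (𝒜 := fun z => AA (Λ z))
    (fun p => (ps p).mono fun z hz => (cd_AA hz).comp z (cΛ z)) fun p => by rw [Λ0, AA_zero]
  obtain ⟨b, b0, hb⟩ := small (𝒜 := fun z => BB (Λ z))
    (fun p => .of_forall fun z => (cd_BB _).comp z (cΛ z)) fun p => by rw [Λ0, BB_zero]
  obtain ⟨c, c0', hc⟩ := Metric.eventually_nhds_iff.1
    ((isCompact_closedBall (0 : H) 2).eventually_forall_of_forall_eventually (x₀ := (0 : ℝ × J))
      (P := fun x p => 0 < 1 + (Λ (p, x)).2.2 et) fun p _ =>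
        (continuous_swap.tendsto' ((0 : ℝ × J), p) (p, 0) rfl).eventually (ps p))
  refine ⟨min a (min b c), by positivity, fun F φ C hF t h => ?_⟩
  let G : H → ℝ := fun q => chi q * F q
  have s23 : closedBall (0 : H) 2 ⊆ ball 0 3 := closedBall_subset_ball (by norm_num)
  have g1 : ∀ q ∈ ball (0 : H) 3, jt G q = Λ (jt F q) := fun q hq =>
    Prod.ext rfl (Prod.ext rfl (fderiv_mul (cd_diff chi.contDiffAt) (cd_diff (hF.1 q hq))))
  have g0 : ∀ q ∉ closedBall (0 : H) 2, G =ᶠ[𝓝 q] fun _ => 0 := fun q hq =>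
    (chi_out hq).mono fun y hy => by simp [G, hy]
  have g2 : ∀ q ∉ closedBall (0 : H) 2, jt G q = (q, 0) := fun q hq =>
    Prod.ext rfl (Prod.ext (g0 q hq).self_of_nhds ((g0 q hq).fderiv_eq.trans (by simp)))
  have u : ∀ p ∈ closedBall (0 : H) 2, ContDiffAt ℝ ∞ (fun q => (F q, fderiv ℝ F q)) p ∧
      ‖(F p, fderiv ℝ F p)‖ < min a (min b c) ∧
      ‖fderiv ℝ (fun q => (F q, fderiv ℝ F q)) p‖ < min a (min b c) := fun p hp => by
    have k := hF.1 p (s23 hp)
    obtain ⟨k1, k2, k3⟩ := hF.2 p hp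
    refine ⟨k.prodMk (cd_fd k), max_lt k1 k2, ?_⟩
    rw [(cd_diff k).fderiv_prodMk (cd_diff (cd_fd k)), ContinuousLinearMap.opNorm_prod]
    exact max_lt k2 k3
  have ev : ∀ (X : H × ℝ × J → H), ∀ p ∈ closedBall (0 : H) 2,
      (fun q => X (jt G q)) =ᶠ[𝓝 p] fun q => X (Λ (q, F q, fderiv ℝ F q)) := fun X p hp =>
    mem_of_superset (isOpen_ball.mem_nhds (s23 hp)) fun q hq => congrArg X (g1 q hq)
  obtain ⟨bA, lA⟩ := cut (A := fun q => AA (jt G q)) (fun p hp => by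
    obtain ⟨k1, k2, k3⟩ := u p hp
    obtain ⟨k4, k5⟩ := ha _ p hp k1 (k2.trans_le (min_le_left _ _)) (k3.trans_le (min_le_left _ _))
    exact ⟨k4.congr_of_eventuallyEq (ev AA p hp), by rwa [(ev AA p hp).fderiv_eq]⟩)
    fun p hp => by rw [g2 p hp, AA_zero]
  have mb : min a (min b c) ≤ b := (min_le_right _ _).trans (min_le_left _ _)
  obtain ⟨bB, lB⟩ := cut (A := fun q => BB (jt G q)) (fun p hp => by
    obtain ⟨k1, k2, k3⟩ := u p hp
    obtain ⟨k4, k5⟩ := hb _ p hp k1 (k2.trans_le mb) (k3.trans_le mb)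
    exact ⟨k4.congr_of_eventuallyEq (ev BB p hp), by rwa [(ev BB p hp).fderiv_eq]⟩)
    fun p hp => by rw [g2 p hp, BB_zero]
  have cG : ∀ p, ContDiffAt ℝ ∞ G p ∧ 0 < 1 + fderiv ℝ G p et := fun p => by
    by_cases hp : p ∈ closedBall (0 : H) 2
    · refine ⟨chi.contDiffAt.mul (hF.1 p (s23 hp)), ?_⟩
      have := hc (y := (F p, fderiv ℝ F p)) (by
        rw [dist_zero_right]
        exact (u p hp).2.1.trans_le ((min_le_right _ _).trans (min_le_right _ _))) p hp
      exact (show fderiv ℝ G p = _ from congrArg (fun z => z.2.2) (g1 p (s23 hp))) ▸ this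
    · exact ⟨contDiffAt_const.congr_of_eventuallyEq (g0 p hp), by simp [(g0 p hp).fderiv_eq]⟩
  let A := Equiv.ofBijective _ bA
  let B := Equiv.ofBijective _ bB
  refine (Xt.of_cs (fun _ => LD_kap) (A.symm.trans B) (fun p => ?_) fun p hp => ?_).congr ?_
  · obtain ⟨q, rfl⟩ := A.surjective p
    have l1 : LD (fun q v => aH (A q) (D H H A q v)) aH A q :=
      LD_pull (lA q) one_pos fun v => (one_mul _).symm
    have l2 : LD (fun q v => aH (A q) (D H H A q v)) aH B q :=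
      LD_pull (lB q) (cG q).2 fun v => by
        rw [D_vec, D_vec]; exact gen_id (cG q).1 (cG q).2 v
    exact l2.comp' (l1.symm (.of_forall A.symm_apply_apply)) (A.symm_apply_apply q)
  · have : A p = p := by change AA (jt G p) = p; rw [g2 p hp, AA_zero]
    rw [Equiv.trans_apply, A.symm_apply_eq.2 this.symm]
    change BB (jt G p) = p
    rw [g2 p hp, BB_zero]
  · have e : G =ᶠ[𝓝 0] F := chi.eventuallyEq_one.mono fun q hq => by simp [G, hq]
    filter_upwards [h, t.eventually e, t.eventually (e.fderiv (𝕜 := ℝ))] with p h1 h2 h3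
    have e1 : jt G (C p) = jt F (C p) := Prod.ext rfl (Prod.ext h2 h3)
    have : A (C p) = p := by change AA (jt G _) = p; rw [e1, h1.1]
    rw [Equiv.trans_apply, A.symm_apply_eq.2 this.symm]
    change _ = BB (jt G _)
    rw [e1, h1.2]

theorem sml_mul {F : H → ℝ} (h : ContDiff ℝ ∞ F) {η : ℝ} (η0 : 0 < η) :
    ∀ᶠ s in 𝓝 (0 : ℝ), Sml η fun q => s • F q := by
  have h1 : ContDiff ℝ ∞ (fderiv ℝ F) := contDiff_iff_contDiffAt.2 fun _ => cd_fd h.contDiffAt
  have h2 : ContDiff ℝ ∞ (fderiv ℝ (fderiv ℝ F)) :=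
    contDiff_iff_contDiffAt.2 fun _ => cd_fd h1.contDiffAt
  have k : ∀ {X : Type} [NormedAddCommGroup X] [NormedSpace ℝ X] {u : H → X}, Continuous u →
      ∀ᶠ s in 𝓝 (0 : ℝ), ∀ p ∈ closedBall (0 : H) 2, ‖s • u p‖ < η := fun hu =>
    (isCompact_closedBall (0 : H) 2).eventually_forall_of_forall_eventually fun p _ =>
      (continuous_fst.smul (hu.comp continuous_snd)).norm.continuousAt.eventually_lt
        continuousAt_const (by simpa using η0)
  filter_upwards [k h.continuous, k h1.continuous, k h2.continuous] with s a b c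
  have e : fderiv ℝ (fun q => s • F q) = fun q => s • fderiv ℝ F q :=
    funext fun q => fderiv_fun_const_smul (cd_diff h.contDiffAt) s
  refine ⟨fun p _ => h.contDiffAt.const_smul s, fun p hp => ⟨a p hp, e ▸ b p hp, ?_⟩⟩
  rw [e, fderiv_fun_const_smul (cd_diff h1.contDiffAt)]
  exact c p hp

end
end Pool.Agent.Lib.MP_efe47c_gt.V
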