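import Pool.Agent.Lib.MP_efe47c_gt.V.Xt

/-! Germs of diffeomorphisms extend to the sphere. -/

namespace Pool.Agent.Lib.MP_efe47c_gt.V
open Set Filter Topology Metric Function Complex
open scoped ContDiff Manifold ComplexConjugate

noncomputable section

abbrev zS := z0 S5 R5
abbrev zH := z0 H H

theorem hk0 : ∀ U h, LD zH zS (kap U) h := fun _ h => LD_zero (LD_kap h)

theorem mvt {X : Type} [NormedAddCommGroup X] [NormedSpace ℝ X] {u : H → X} {η : ℝ}
    (h : ∀ p ∈ closedBall (0 : H) 2, DifferentiableAt ℝ u p ∧ ‖fderiv ℝ u p‖ ≤ η) (h0 : u 0 = 0)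
    {p : H} (hp : p ∈ closedBall (0 : H) 2) : ‖u p‖ ≤ 2 * η := by
  have := (convex_closedBall (0 : H) 2).norm_image_sub_le_of_norm_fderiv_le (fun q hq => (h q hq).1)
    (fun q hq => (h q hq).2) (mem_closedBall_self zero_le_two) hp
  rw [h0, sub_zero, sub_zero] at this
  have e := (norm_nonneg _).trans (h p hp).2
  nlinarith [mem_closedBall_zero_iff.1 hp]

theorem near0 : ∃ η, 0 < η ∧ ∀ φ : H → H, (∀ p ∈ closedBall (0 : H) 2, ContDiffAt ℝ ∞ φ p ∧
    ‖fderiv ℝ φ p - .id ℝ H‖ < η) → φ 0 = 0 → Xt zS φ := by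
  obtain ⟨η, η0, hη⟩ := small (𝒜 := fun z : H × H => z.1 + chi z.1 • z.2)
    (fun p => .of_forall fun z => contDiffAt_fst.add
      ((chi.contDiffAt.comp z contDiffAt_fst).smul contDiffAt_snd)) (fun p => by simp)
  refine ⟨η / 3, by positivity, fun φ h h0 => ?_⟩
  have d : ∀ p ∈ closedBall (0 : H) 2, DifferentiableAt ℝ (fun q => φ q - q) p ∧
      ‖fderiv ℝ (fun q => φ q - q) p‖ ≤ η / 3 := fun p hp =>
    ⟨(cd_diff (h p hp).1).sub differentiableAt_id, by
      exact (congrArg norm ((cd_diff (h p hp).1).hasFDerivAt.sub (hasFDerivAt_id p)).fderiv).trans_le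
        (h p hp).2.le⟩
  obtain ⟨b, l⟩ := cut (A := fun q => q + chi q • (φ q - q)) (fun p hp =>
    hη (fun q => φ q - q) p hp ((h p hp).1.sub contDiffAt_id)
      (by linarith [mvt d (by simp [h0]) hp]) (by linarith [(d p hp).2]))
    fun p hp => by simp [(chi_out hp).self_of_nhds]
  refine (Xt.of_cs hk0 (Equiv.ofBijective _ b) l fun p hp => ?_).congr ?_
  · simp [(chi_out hp).self_of_nhds]
  · filter_upwards [chi.eventuallyEq_one] with p hp
    simp [hp]

theorem tz (L : H →L[ℝ] H) : Tendsto L (𝓝 0) (𝓝 0) := by simpa using L.continuous.tendsto 0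

theorem exists_eq {L : H →L[ℝ] H} (h : Injective L) : ∃ e : H ≃L[ℝ] H, (e : H →L[ℝ] H) = L :=
  ⟨(LinearEquiv.ofInjectiveEndo L.toLinearMap h).toContinuousLinearEquiv, rfl⟩

theorem path {γ : ℝ → H →L[ℝ] H} (c : Continuous γ) (h : ∀ s ∈ Icc (0 : ℝ) 1, Injective (γ s)) :
    Xt zS (γ 0) ↔ Xt zS (γ 1) := by
  obtain ⟨η, η0, hη⟩ := near0
  refine isPreconnected_Icc.induction₂ (fun s t => Xt zS (γ s) ↔ Xt zS (γ t)) (fun s hs => ?_)
    (fun _ _ _ _ _ _ => Iff.trans) (fun _ _ _ _ => Iff.symm) (left_mem_Icc.2 zero_le_one)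
    (right_mem_Icc.2 zero_le_one)
  obtain ⟨e, he⟩ := exists_eq (h s hs)
  have c1 : Continuous fun t => ‖(γ t).comp (e.symm : H →L[ℝ] H) - .id ℝ H‖ :=
    ((c.clm_comp continuous_const).sub continuous_const).norm
  filter_upwards [nhdsWithin_le_nhds (c1.continuousAt.eventually_lt (x₀ := s) continuousAt_const
    (by simpa [← he] using η0))] with t ht
  have k := hη ((γ t).comp (e.symm : H →L[ℝ] H)) (fun p _ => ⟨ContinuousLinearMap.contDiff _
    |>.contDiffAt, by rwa [ContinuousLinearMap.fderiv]⟩) (map_zero _)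
  have e1 : ∀ p, (γ t).comp (e.symm : H →L[ℝ] H) (γ s p) = γ t p := fun p => by simp [← he]
  exact ⟨fun a => (k.comp a (tz _)).congr (.of_forall fun p => (e1 p).symm),
    fun a => k.cancel (a.congr (.of_forall e1)) (tz _)⟩

/-- Rank one perturbations of the identity. -/
def Tr (l : H →L[ℝ] ℝ) (a : H) : H →L[ℝ] H := .id ℝ H + l.smulRight a

theorem Tr_apply (l : H →L[ℝ] ℝ) (a p : H) : Tr l a p = p + l p • a := rfl

theorem Tr_inj {l : H →L[ℝ] ℝ} {a : H} (h : 1 + l a ≠ 0) : Injective (Tr l a) := by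
  refine (injective_iff_map_eq_zero _).2 fun v hv => ?_
  rw [Tr_apply] at hv
  have : l v * (1 + l a) = 0 := by simpa [mul_add] using congrArg l hv
  simpa [(mul_eq_zero.1 this).resolve_right h] using hv

theorem pathT {R : H →L[ℝ] H} (hR : Injective R) (l m : H →L[ℝ] ℝ) (a b : H)
    (h : ∀ s ∈ Icc (0 : ℝ) 1, 1 + (l + s • (m - l)) (a + s • (b - a)) ≠ 0) :
    Xt zS ((Tr l a).comp R) ↔ Xt zS ((Tr m b).comp R) := by
  have := path (γ := fun s => (Tr (l + s • (m - l)) (a + s • (b - a))).comp R)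
    (continuous_clm_apply.2 fun p => by
      simp only [ContinuousLinearMap.comp_apply, Tr_apply]
      fun_prop) fun s hs => (Tr_inj (h s hs)).comp hR
  simpa using this

def dt : H →L[ℝ] ℝ := (ContinuousLinearMap.snd ℝ ℂ ℝ).comp (ContinuousLinearMap.snd ℝ ℂ (ℂ × ℝ))

def et : H := (0, 0, 1)

theorem dt_apply (p : H) : dt p = p.2.2 := rfl

theorem refl_eq {R : H →L[ℝ] H} (hR : Injective R) {l : H →L[ℝ] ℝ} {a : H} (h : 1 + l a < 0)
    (h0 : 0 ≤ dt a) : Xt zS ((Tr l a).comp R) ↔ Xt zS ((Tr ((-2 : ℝ) • dt) et).comp R) := by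
  have e : dt et = 1 := rfl
  have k := le_abs_self (l et)
  have k0 := abs_nonneg (l et)
  refine (pathT hR l (l - (|l et| + 2) • dt) a a fun s hs => ne_of_lt ?_).trans
    ((pathT hR _ (l - (|l et| + 2) • dt) a et fun s hs => ne_of_lt ?_).trans
      (pathT hR _ _ et et fun s hs => ne_of_lt ?_))
  · simp only [sub_self, smul_zero, add_zero, add_apply, smul_apply, sub_apply, smul_eq_mul]
    nlinarith [mul_nonneg hs.1 (mul_nonneg (by linarith : 0 ≤ |l et| + 2) h0)]
  · simp only [sub_self, smul_zero, add_zero, map_add, map_smul, map_sub, smul_apply, sub_apply,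
      smul_eq_mul, e]
    nlinarith [mul_nonneg (sub_nonneg.2 hs.2) (mul_nonneg (by linarith : 0 ≤ |l et| + 2) h0),
      hs.1, hs.2, mul_nonneg hs.1 (sub_nonneg.2 k),
      mul_nonneg (sub_nonneg.2 hs.2) (neg_nonneg.2 h.le)]
  · simp only [sub_self, smul_zero, add_zero, add_apply, smul_apply, sub_apply, smul_eq_mul, e]
    nlinarith [mul_nonneg (sub_nonneg.2 hs.2) (sub_nonneg.2 k)]

/-- Complex conjugation. -/
def cjv (z : C3) : C3 := WithLp.toLp 2 fun i => conj (z i)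

def cjs (p : S5) : S5 := ⟨cjv p, by
  rw [mem_sphere_zero_iff_norm, ← sq_eq_sq₀ (norm_nonneg _) zero_le_one, nsq3,
    ← norm_eq_of_mem_sphere p, nsq3]
  simp [cjv]⟩

theorem cjs_cjs (p : S5) : cjs (cjs p) = p := Subtype.ext (by ext i; simp [cjs, cjv])

theorem xt_rf : Xt zS fun p => (conj p.1, conj p.2.1, -p.2.2) := by
  have c : ContDiff ℝ ∞ cjv := contDiff_iff_contDiffAt.2 fun z =>
    contDiffAt_piLp' 2 fun i => cd_conj (cd_pr z i)
  have s : ∀ p, Sm R5 R5 cjs p :=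
    ContMDiff.codRestrict_sphere (n := 5) (c.contMDiff.comp contMDiff_coe_sphere) _
  refine ⟨⟨cjs, cjs, cjs_cjs, cjs_cjs⟩, fun p => ⟨s p, ⟨cjs, s _, .of_forall cjs_cjs,
    .of_forall cjs_cjs⟩, 1, one_pos, fun _ => by simp [z0]⟩, .of_forall fun h => Subtype.ext ?_⟩
  have e : cu (conj h.1, conj h.2.1, -h.2.2) = conj (cu h) := by simp [cu, ze, rho]
  change cjv (k0 h) = k0 _
  ext i
  fin_cases i <;> simp [cjv, k0, e, map_ofNat]

theorem xt_flip : Xt zS (Tr ((-2 : ℝ) • dt) et) := by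
  let l₁ : H →L[ℝ] ℝ := (-2 : ℝ) • imCLM.comp (ContinuousLinearMap.fst ℝ ℂ (ℂ × ℝ))
  let l₂ : H →L[ℝ] ℝ := (-2 : ℝ) • imCLM.comp
    ((ContinuousLinearMap.fst ℝ ℂ ℝ).comp (ContinuousLinearMap.snd ℝ ℂ (ℂ × ℝ)))
  have h1 : 1 + l₁ (I, 0, 0) < 0 := by simp [l₁]
  have h2 : 1 + l₂ (0, I, 0) < 0 := by simp [l₂]
  have i : Injective ((Tr l₂ (0, I, 0)).comp (Tr ((-2 : ℝ) • dt) et)) :=
    (Tr_inj h2.ne).comp (Tr_inj (by simp [dt_apply, et]; norm_num))
  refine ((refl_eq i h2 le_rfl).2 ((refl_eq i h1 le_rfl).1 (xt_rf.congr (.of_forall fun p =>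
    ?_)))).congr (.of_forall fun p => ?_)
  · simp [Tr_apply, l₁, l₂, dt_apply, et, Prod.ext_iff, Complex.ext_iff]
    refine ⟨?_, ?_, ?_⟩ <;> ring
  · simp [Tr_apply, l₂, dt_apply, et, Prod.ext_iff, Complex.ext_iff]
    ring

theorem xt_Tr {l : H →L[ℝ] ℝ} {a : H} (h : 1 + l a ≠ 0) : Xt zS (Tr l a) := by
  have i : Injective (ContinuousLinearMap.id ℝ H) := injective_id
  rcases h.lt_or_gt with h | h
  · rcases le_total 0 (dt a) with k | k
    · exact (refl_eq i h k).2 xt_flip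
    · exact ((refl_eq i (l := -l) (a := -a) (by simpa using h) (by simpa using k)).2
        xt_flip).congr (.of_forall fun p => by simp [Tr_apply])
  · refine (pathT i l l 0 a fun s hs => ne_of_gt ?_).1
      (Xt.id.congr (.of_forall fun p => by simp [Tr_apply]))
    simp only [sub_self, smul_zero, add_zero, zero_add, sub_zero, map_smul, smul_eq_mul]
    rcases hs.1.eq_or_lt with k | k
    · simp [← k]
    · nlinarith [hs.2, mul_pos k h]

theorem xt_lin {L : H →L[ℝ] H} (h : Injective L) : Xt zS L := by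
  let W : (H →L[ℝ] H) → Submodule ℝ H := fun L => LinearMap.ker (L - .id ℝ H).toLinearMap
  have mW : ∀ L v, v ∈ W L ↔ L v = v := fun L v => by simp [W, sub_eq_zero]
  suffices k : ∀ (n : ℕ) (L : H →L[ℝ] H), Injective L →
      Module.finrank ℝ H ≤ Module.finrank ℝ (W L) + n → Xt zS L from k _ L h le_add_self
  intro n
  induction n with
  | zero => exact fun L _ k => Xt.id.congr (.of_forall fun p => (mW L p).1
      (Submodule.eq_top_of_finrank_eq (le_antisymm (Submodule.finrank_le _) k) ▸ trivial))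
  | succ n ih =>
    intro L i k
    by_cases a : ∀ v, L v = v
    · exact Xt.id.congr (.of_forall a)
    obtain ⟨v, hv⟩ := not_forall.1 a
    obtain ⟨f, f1, f2⟩ := (W L).exists_dual_map_eq_bot_of_notMem (x := L v)
      (fun e => hv (i ((mW _ _).1 e))) inferInstance
    obtain ⟨g, g1, g2⟩ := (W L).exists_dual_map_eq_bot_of_notMem (x := v)
      (fun e => hv ((mW _ _).1 e)) inferInstance
    have z : ∀ {f : Module.Dual ℝ H}, (W L).map f = ⊥ → ∀ w ∈ W L, f w = 0 := fun e w hw =>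
      (Submodule.eq_bot_iff _).1 e _ (Submodule.mem_map_of_mem hw)
    obtain ⟨l, l1, l2, l3⟩ : ∃ l : Module.Dual ℝ H, l (L v) ≠ 0 ∧ l v ≠ 0 ∧ ∀ w ∈ W L, l w = 0 := by
      by_cases b : f v = 0
      · by_cases c : g (L v) = 0
        · exact ⟨f + g, by simpa [c], by simpa [b], fun w hw => by simp [z f2 w hw, z g2 w hw]⟩
        · exact ⟨g, c, g1, z g2⟩
      · exact ⟨f, f1, b, z f2⟩
    let m : H →L[ℝ] ℝ := (l (L v))⁻¹ • LinearMap.toContinuousLinearMap l
    have m1 : 1 + m (v - L v) ≠ 0 := by simpa [m, mul_sub, l1] using l2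
    refine (xt_Tr m1).cancel (ih ((Tr m (v - L v)).comp L) ((Tr_inj m1).comp i) ?_) (tz L)
    have : W L < W ((Tr m (v - L v)).comp L) := by
      refine SetLike.lt_iff_le_and_exists.2 ⟨fun w hw => ?_, v, ?_, fun e => hv ((mW _ _).1 e)⟩
      · simp [mW, Tr_apply, m, (mW _ _).1 hw, l3 w hw]
      · simp [mW, Tr_apply, m, l1]
    have := Submodule.finrank_lt_finrank_of_lt this
    omega

theorem LD_fd_inj {α β : H → H → ℝ} {φ : H → H} {p : H} (h : LD α β φ p) :
    Injective (fderiv ℝ φ p) := by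
  obtain ⟨g, g1, g2, -⟩ := h.inv
  rw [← D_vec]
  exact LeftInverse.injective (g := D H H g (φ p)) fun v => by
    rw [← D_comp g1 h.sm, D_congr (g := fun z => z) g2, D_id]

theorem germ0 (φ : H → H) (h : ∀ᶠ p in 𝓝 0, LD zH zH φ p) (h0 : φ 0 = 0) : Xt zS φ := by
  obtain ⟨η, η0, hη⟩ := near0
  obtain ⟨e, he⟩ := exists_eq (LD_fd_inj h.self_of_nhds)
  have c : ContinuousAt (fun p => ‖(e.symm : H →L[ℝ] H).comp (fderiv ℝ φ p) - .id ℝ H‖) 0 :=
    ((continuousAt_const.clm_comp (h.self_of_nhds.sm.contDiffAt.continuousAt_fderiv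
      (by simp))).sub continuousAt_const).norm
  obtain ⟨r, r0, hr⟩ := Metric.eventually_nhds_iff.1 (h.and (c.eventually_lt continuousAt_const
    (by simpa [← he] using η0)))
  have r3 : 0 < r / 3 := by positivity
  have k := hη (fun p => (r / 3)⁻¹ • e.symm (φ ((r / 3) • p))) (fun p hp => by
    obtain ⟨a, b⟩ := hr (y := (r / 3) • p) (by
      rw [dist_zero_right, norm_smul, Real.norm_of_nonneg r3.le]
      nlinarith [mem_closedBall_zero_iff.1 hp])
    have c := a.sm.contDiffAt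
    refine ⟨(e.symm.contDiff.contDiffAt.comp p (c.comp p (contDiffAt_id.const_smul _))).const_smul _,
      ?_⟩
    have d : HasFDerivAt (fun p => (r / 3)⁻¹ • e.symm (φ ((r / 3) • p)))
        ((e.symm : H →L[ℝ] H).comp (fderiv ℝ φ ((r / 3) • p))) p :=
      ((e.symm.hasFDerivAt.comp p ((cd_diff c).hasFDerivAt.comp p
        ((hasFDerivAt_id p).const_smul (r / 3)))).const_smul (r / 3)⁻¹).congr_fderiv (by
          rw [ContinuousLinearMap.comp_smul, ContinuousLinearMap.comp_smul, inv_smul_smul₀ r3.ne',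
            ContinuousLinearMap.comp_id])
    rwa [d.fderiv]) (by simp [h0])
  have i1 : Injective ((r / 3)⁻¹ • (e.symm : H →L[ℝ] H)) :=
    (smul_right_injective H (inv_ne_zero r3.ne')).comp e.symm.injective
  have i2 : Injective ((r / 3)⁻¹ • ContinuousLinearMap.id ℝ H) :=
    smul_right_injective H (inv_ne_zero r3.ne')
  refine (xt_lin i1).cancel ((k.comp (xt_lin i2) (tz _)).congr (.of_forall fun p => ?_)) ?_
  · simp only [smul_apply, ContinuousLinearMap.id_apply, smul_inv_smul₀ r3.ne']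
    rfl
  · simpa [h0] using h.self_of_nhds.cont.tendsto

end
end Pool.Agent.Lib.MP_efe47c_gt.V
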