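import Pool.Agent.Lib.MP_efe47c_gt.Main

/-! A manifold glued from open pieces of the sphere; small facts on the sphere. -/

namespace Pool.Agent.Lib.MP_efe47c_gt.V
open Set Filter Topology Metric Function Complex
open scoped ContDiff Manifold

noncomputable section

theorem sm_chart {c : OpenPartialHomeomorph S5 R5} (hc : c ∈ atlas R5 S5) {p : S5}
    (hp : p ∈ c.source) : Sm R5 R5 c p ∧ Sm R5 R5 c.symm (c p) :=
  ⟨contMDiffAt_of_mem_maximalAtlas (IsManifold.subset_maximalAtlas hc) hp,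
    contMDiffAt_symm_of_mem_maximalAtlas (IsManifold.subset_maximalAtlas hc) (c.map_source hp)⟩

theorem exists_glue {N : Type} [TopologicalSpace N] (A : Set (OpenPartialHomeomorph N S5))
    (cov : ∀ q, ∃ φ ∈ A, q ∈ φ.source)
    (tr : ∀ φ ∈ A, ∀ ψ ∈ A, ∀ q ∈ φ.source, q ∈ ψ.source →
      Sm R5 R5 (fun p => ψ (φ.symm p)) (φ q)) :
    ∃ _ : ChartedSpace R5 N, IsManifold (𝓡 5) ∞ N ∧
      ∀ φ ∈ A, ∀ q ∈ φ.source, Sm R5 R5 φ q ∧ Sm R5 R5 φ.symm (φ q) := by
  choose ch c1 c2 using cov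
  let : ChartedSpace S5 N := ⟨A, ch, c2, c1⟩
  let cs : ChartedSpace R5 N := ChartedSpace.comp R5 S5 N
  have im : IsManifold (𝓡 5) ∞ N := by
    refine isManifold_of_contDiffOn _ _ _ ?_
    rintro _ _ ⟨φ, hφ, c, hc, rfl⟩ ⟨ψ, hψ, d, hd, rfl⟩ z ⟨hz, -⟩
    simp only [mfld_simps] at hz
    obtain ⟨⟨h1, h2⟩, h3, h4⟩ := hz
    have s1 := (sm_chart hc (c.map_target h1)).2
    have s2 := tr φ hφ ψ hψ _ (φ.map_target h2) h3
    rw [c.right_inv h1] at s1
    rw [φ.right_inv h2] at s2
    have s3 : Sm R5 R5 (fun z => ψ (φ.symm (c.symm z))) z :=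
      ContMDiffAt.comp (g := fun p => ψ (φ.symm p)) (f := c.symm) z s2 s1
    have s4 : Sm R5 R5 (fun z => d (ψ (φ.symm (c.symm z)))) z :=
      ContMDiffAt.comp (g := d) z (sm_chart hd h4).1 s3
    exact s4.contDiffAt.contDiffWithinAt
  refine ⟨cs, im, fun φ hφ q hq => ?_⟩
  set c := chartAt R5 (φ q)
  have hc : φ q ∈ c.source := mem_chart_source _ _
  have m : φ.trans c ∈ IsManifold.maximalAtlas (𝓡 5) ∞ N :=
    IsManifold.subset_maximalAtlas ⟨φ, hφ, c, chart_mem_atlas _ _, rfl⟩
  have hq' : q ∈ (φ.trans c).source := ⟨hq, hc⟩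
  obtain ⟨s1, s2⟩ := sm_chart (chart_mem_atlas R5 (φ q)) hc
  constructor
  · refine (ContMDiffAt.comp q s2 (contMDiffAt_of_mem_maximalAtlas m hq')).congr_of_eventuallyEq ?_
    filter_upwards [(φ.trans c).open_source.mem_nhds hq'] with y hy
    exact (c.left_inv hy.2).symm
  · have s3 : Sm R5 R5 (φ.trans c).symm (c (φ q)) :=
      contMDiffAt_symm_of_mem_maximalAtlas m ((φ.trans c).map_source hq')
    refine (ContMDiffAt.comp (g := (φ.trans c).symm) (f := c) (φ q) s3 s1).congr_of_eventuallyEq ?_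
    filter_upwards [c.open_source.mem_nhds hc] with y hy
    exact congrArg φ.symm (c.left_inv hy).symm

/-- The height function. -/
abbrev ht (p : S5) : ℝ := ((p : C3) 0).re

theorem cont_ht : Continuous ht := by fun_prop

theorem ht_neg (p : S5) : ht (-p) = -ht p := by simp [ht]

theorem LD_neg (p : S5) : LD aS aS (fun p : S5 => -p) p := by
  obtain ⟨U, hU⟩ := exists_pole (-p)
  have h : p ≠ pole U := hU ▸ ne_neg_of_mem_unit_sphere ℝ p
  refine ((LD_kap (U := U.trans (LinearIsometryEquiv.neg ℂ)) _).comp (LD_cay h)).congr ?_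
  filter_upwards [eventually_ne_nhds h] with q hq
  conv_lhs => rw [← kap_cay hq]
  exact Subtype.ext (by simp [kap])

variable {M : Type} [TopologicalSpace M] [ChartedSpace R5 M]

theorem exists_cap {α : Form R5 M} {d : PD R5 S5 M} (hd : Contacto std α d) {x : M}
    (hx : x ∈ d.target) : ∃ (e : PD R5 S5 M) (n : S5), Contacto std α e ∧
      e.source = {p | -(1 / 2) < ht p} ∧ ht n = 1 ∧ e n = x := by
  have h1 : d.invFun x ∈ d.source := d.map_target hx
  obtain ⟨U, hU⟩ := exists_pole (-d.invFun x)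
  have h2 : d.invFun x ≠ pole U := hU ▸ ne_neg_of_mem_unit_sphere ℝ _
  set a := cay U (d.invFun x)
  have h3 : kap U (tr a 0) = d.invFun x := by rw [tr_zero, kap_cay h2]
  obtain ⟨η, η0, -, hη⟩ := gau_basis (s := {h | kap U (tr a h) ∈ d.source})
    (((LD_kap _).comp (LH_tr a 0)).cont.preimage_mem_nhds (d.open_source.mem_nhds (h3 ▸ h1)))
  have np : ∀ p : S5, -(1 / 2) ≤ ht p → p ≠ pole U0 := fun p hp => ne_pole (by linarith)
  obtain ⟨B, hB⟩ := gau_bdd ((isClosed_le continuous_const cont_ht).isCompact.image_of_continuousOn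
    (contOn_of_LD fun p hp => LD_cay (np p hp)))
  have B0 : 0 < |B| + 1 := by positivity
  obtain ⟨R, r1, r2, -⟩ := exists_rad B0 (lt_add_one _) le_rfl (Real.log (η / (|B| + 1)))
  rw [Real.exp_log (by positivity)] at r2
  have ms : ∀ p : S5, -(1 / 2) < ht p → kap U (tr a (R (cay U0 p))) ∈ d.source := fun p hp => by
    have k : gau (cay U0 p) ≤ |B| + 1 := by linarith [hB _ ⟨p, hp.le, rfl⟩, le_abs_self B]
    refine hη _ ?_
    rw [r2 _ k, div_mul_eq_mul_div, div_le_iff₀ B0]
    exact mul_le_mul_of_nonneg_left k η0.le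
  have R0 : R 0 = 0 := by
    by_contra k
    have := gau_pos k
    rw [r2 0 (by simpa using B0.le)] at this
    simp at this
  have : Nonempty S5 := ⟨pole U⟩
  obtain ⟨e, e1, -, e3, e4⟩ := exists_pd (α := std) (β := α)
    (f := fun p => d (kap U (tr a (R (cay U0 p))))) (U := {p | -(1 / 2) < ht p})
    (isOpen_lt continuous_const cont_ht) (InjOn.bijOn_image fun p hp q hq k => by
      have := R.injective (LeftInverse.injective (tr_tr a) (LeftInverse.injective cay_kap
        (d.injOn (ms p hp) (ms q hq) k)))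
      rw [← kap_cay (np p hp.le), this, kap_cay (np q hq.le)])
    fun p hp => by
      have l := (LD_kap (U := U) _).comp ((LH_tr a _).comp ((r1 _).comp (LD_cay (np p hp.le))))
      exact LD.comp (g := d) (hd.ld (ms p hp)) l
  refine ⟨e, kap U0 0, e4, e1, by simp [ht, kap_re, rho], ?_⟩
  rw [e3]
  change d (kap U (tr a (R (cay U0 (kap U0 0))))) = x
  rw [cay_kap, R0, h3]
  exact d.right_inv hx

theorem exists_homeo [T2Space M] [CompactSpace M] {g : PD R5 M S5} {x : M} {y : S5}
    (gs : g.source = {x}ᶜ) (gt : g.target = {y}ᶜ) : ∃ f : M ≃ₜ S5, EqOn f g {x}ᶜ := by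
  classical
  let f : M → S5 := fun m => if m = x then y else g m
  have f0 : f x = y := if_pos rfl
  have f1 : EqOn f g {x}ᶜ := fun m hm => if_neg hm
  have bf : BijOn f {x}ᶜ {y}ᶜ := (gs ▸ gt ▸ g.bijOn).congr f1.symm
  have bij : Bijective f := by
    have := bf.union (s₂ := {x}) (t₂ := {y}) (bijOn_singleton.2 f0) (by
      intro m _ m' _ k
      by_cases a : m = x <;> by_cases a' : m' = x
      · rw [a, a']
      · exact absurd (k.symm.trans (a ▸ f0)) (bf.mapsTo a')
      · exact absurd (k.trans (a' ▸ f0)) (bf.mapsTo a)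
      · exact bf.injOn a a' k)
    rwa [compl_union_self, compl_union_self, bijOn_univ] at this
  refine ⟨Continuous.homeoOfEquivCompactToT2 (f := Equiv.ofBijective f bij)
    (continuous_iff_continuousAt.2 fun m => ?_), f1⟩
  change ContinuousAt f m
  by_cases a : m = x
  · subst a
    refine tendsto_nhds.2 fun V oV hV => ?_
    have s : Vᶜ ⊆ g.target := gt ▸ fun z hz k => hz (by rwa [f0, ← k] at hV)
    have c : IsClosed (g.invFun '' Vᶜ) := (oV.isClosed_compl.isCompact.image_of_continuousOn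
      (g.contMDiffOn_invFun.continuousOn.mono s)).isClosed
    filter_upwards [c.isOpen_compl.mem_nhds (by
      rintro ⟨z, hz, k⟩
      exact (gs ▸ g.map_target (s hz) :) k)] with z hz
    by_cases b : z = m
    · exact b ▸ hV
    · by_contra k
      exact hz ⟨f z, k, by rw [f1 b]; exact g.left_inv (gs ▸ b)⟩
  · exact ((g.contMDiffOn_toFun.continuousOn.continuousAt
      (g.open_source.mem_nhds (gs ▸ a))).congr
      ((eventually_ne_nhds a).mono fun z hz => (f1 hz).symm))

end
end Pool.Agent.Lib.MP_efe47c_gt.V
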