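import Pool.Agent.Lib.MP_efe47c_gt.V.Defs

/-! Periodic contactomorphisms of the Heisenberg group and their cut-offs. -/

namespace Pool.Agent.Lib.MP_efe47c_gt.V
open Filter
open scoped ContDiff ComplexConjugate

/-- The space `ℂ² × ℝ`. -/
abbrev Hs := ℂ × ℂ × ℝ

/-- The standard contact form `dt + 2 ∑ (x dy - y dx)`. -/
def heis (p v : Hs) : ℝ := v.2.2 + 2 * ((conj p.1 * v.1).im + (conj p.2.1 * v.2.1).im)

/-- `K` is a diffeomorphism. -/
def Dif (K : Hs ≃ Hs) : Prop := ContDiff ℝ ∞ K ∧ ContDiff ℝ ∞ K.symm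

/-- `K` pulls the standard form back to a positive multiple. -/
def Con (K : Hs → Hs) : Prop :=
  ∀ p, ∃ c : ℝ, 0 < c ∧ ∀ v, heis (K p) (fderiv ℝ K p v) = c * heis p v

/-- `K` commutes with the translation `t ↦ t + 1`, is the identity outside the tube of radius `ε`
around the axis and moves points by at most `ε`. -/
def Per (ε : ℝ) (K : Hs → Hs) : Prop :=
  (∀ p, K (p + (0, 0, 1)) = K p + (0, 0, 1)) ∧ (∀ p, ε ≤ ‖(p.1, p.2.1)‖ → K p = p) ∧
    ∀ p, ‖K p - p‖ ≤ ε

/-- `L` is a diffeomorphism which, outside a compact set, is `K` on the upper half space and the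
identity on the lower half space. -/
def Cut (K : Hs → Hs) (L : Hs ≃ Hs) : Prop :=
  Dif L ∧ ∀ᶠ p in cocompact Hs, L p = if 0 ≤ p.2.2 then K p else p

end Pool.Agent.Lib.MP_efe47c_gt.V
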