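import Pool.Agent.Lib.MP_efe47c_gt.V.Exact
import Pool.Agent.Lib.MP_efe47c_gt.V.TDefs

/-! The question in terms of periodic contactomorphisms. -/

namespace Pool.Agent.Lib.MP_efe47c_gt.V
open Set Filter Topology Metric Function Complex C
open scoped ContDiff Manifold

noncomputable section

theorem dif_iff {K : H ≃ H} : Dif K ↔ ∀ p, LD zH zH K p :=
  ⟨fun h p => LD.of_vec h.1.contDiffAt h.2.contDiffAt (.of_forall K.symm_apply_apply)
    (.of_forall K.apply_symm_apply) one_pos fun _ => by simp [z0],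
  fun h => ⟨contDiff_iff_contDiffAt.2 fun p => (h p).sm.contDiffAt,
    contDiff_iff_contDiffAt.2 fun p => ((h (K.symm p)).symm' (.of_forall K.symm_apply_apply)
      (K.apply_symm_apply p)).sm.contDiffAt⟩⟩

theorem con_iff {K : H ≃ H} : Dif K ∧ Con K ↔ ∀ p, LH K p := by
  refine ⟨fun h p => ?_, fun h => ⟨dif_iff.2 fun p => LD_zero (h p), fun p => ?_⟩⟩
  · obtain ⟨c, c0, hc⟩ := h.2 p
    exact LD_pull (dif_iff.1 h.1 p) c0 fun v => by rw [D_vec]; exact hc v
  · exact ⟨_, cf_spec (h p)⟩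

theorem exists_ext {X Y : Type} {f : X → Y} {x : X} {y : Y} (b : BijOn f {x}ᶜ {y}ᶜ) :
    ∃ F : X ≃ Y, F x = y ∧ EqOn F f {x}ᶜ := by
  classical
  let g : X → Y := fun m => if m = x then y else f m
  have f0 : g x = y := if_pos rfl
  have f1 : EqOn g f {x}ᶜ := fun m hm => if_neg hm
  have bf : BijOn g {x}ᶜ {y}ᶜ := b.congr f1.symm
  have := bf.union (s₂ := {x}) (t₂ := {y}) (bijOn_singleton.2 f0) (by
    intro m _ m' _ k
    by_cases a : m = x <;> by_cases a' : m' = x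
    · rw [a, a']
    · exact absurd (k.symm.trans (a ▸ f0)) (bf.mapsTo a')
    · exact absurd (k.trans (a' ▸ f0)) (bf.mapsTo a)
    · exact bf.injOn a a' k)
  rw [compl_union_self, compl_union_self, bijOn_univ] at this
  exact ⟨Equiv.ofBijective g this, f0, f1⟩

theorem kap_top : Tendsto (kap U0) (cocompact H) (𝓝 (pole U0)) := by
  have := (LD_kap (U := UA) 0).cont.tendsto.comp iv_top
  rw [kap_zero] at this
  refine this.congr' ?_
  filter_upwards [(isCompact_singleton (x := (0 : H))).compl_mem_cocompact] with h hh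
  rw [comp_apply, ← kap_iv (iv_ne hh), iv_iv hh]

theorem near_pole {P : H → Prop} (h : ∀ᶠ q in cocompact H, P q) :
    ∀ᶠ p in 𝓝 (pole U0), p = pole U0 ∨ ∃ q, P q ∧ p = kap U0 q := by
  obtain ⟨Z, cZ, hZ⟩ := mem_cocompact.1 h
  filter_upwards [(cZ.image_of_continuousOn
    (contOn_of_LD fun h _ => LD_kap (U := U0) h)).isClosed.isOpen_compl.mem_nhds
    (show pole U0 ∈ _ from fun ⟨h, _, e⟩ => kap_ne h e)] with p hp
  by_cases a : p = pole U0
  · exact Or.inl a
  · exact Or.inr ⟨_, hZ fun k => hp ⟨_, k, kap_cay a⟩, (kap_cay a).symm⟩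

theorem far_nhds {P : H → Prop} (h : ∀ᶠ q in cocompact H, P q) :
    ∀ᶠ q in cocompact H, ∀ᶠ p in 𝓝 q, P p := by
  obtain ⟨Z, cZ, hZ⟩ := mem_cocompact.1 h
  exact mem_of_superset cZ.compl_mem_cocompact fun q hq =>
    mem_of_superset (cZ.isClosed.isOpen_compl.mem_nhds hq) hZ

theorem far_or (R : ℝ) : ∀ᶠ q : H in cocompact H, R < ‖(q.1, q.2.1)‖ ∨ R < |q.2.2| := by
  filter_upwards [(tendsto_norm_cocompact_atTop (E := H)).eventually_gt_atTop R] with q hq
  simpa only [Prod.norm_def, lt_max_iff, Real.norm_eq_abs, or_assoc] using (show R < ‖q‖ from hq)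

theorem bij_cay : BijOn (cay U0) {pole U0}ᶜ univ :=
  (bij_kap U0).symm ⟨fun _ hp => kap_cay hp, fun h _ => cay_kap h⟩

theorem of_tube {ε : ℝ} {K L : H ≃ H} (hK : ∀ p, LH K p) (hP : Per ε K) (hL : Cut K L)
    (hN : ¬∃ L, Cut K L ∧ Con L) : ∃ α : Form R5 S5, ¬Std α ∧ Off α := by
  classical
  have lL : ∀ᶠ q in cocompact H, LH L q := by
    filter_upwards [far_nhds hL.2, far_or |ε|] with q a b
    have c3 : ContinuousAt (fun p : H => p.2.2) q := by fun_prop
    rcases b with b | b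
    · refine (LD.refl aH q).congr ?_
      filter_upwards [a, continuousAt_const.eventually_lt
        (g := fun p : H => ‖(p.1, p.2.1)‖) (by fun_prop) b] with p h1 h2
      rw [h1, hP.2.1 p ((le_abs_self ε).trans h2.le), ite_self]
    · rcases (abs_pos.1 ((abs_nonneg ε).trans_lt b)).lt_or_gt with k | k
      · refine (LD.refl aH q).congr ?_
        filter_upwards [a, c3.eventually_lt continuousAt_const k] with p h1 h2
        rw [h1, if_neg h2.not_ge]
      · refine (hK q).congr ?_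
        filter_upwards [a, continuousAt_const.eventually_lt c3 k] with p h1 h2
        rw [h1, if_pos h2.le]
  let g : S5 → S5 := fun p => kap U0 (L (cay U0 p))
  have bg : BijOn g {pole U0}ᶜ {pole U0}ᶜ :=
    (bij_kap U0).comp (L.bijective.bijOn_univ.comp bij_cay)
  let α : Form R5 S5 := fun p => if p = pole U0 then std p else
    (std (g p)).comp (mfderiv 𝓘(ℝ, R5) 𝓘(ℝ, R5) g p)
  have e1 : ∀ p, p ≠ pole U0 → ∀ v, aS (g p) (D R5 R5 g p v) = 1 * fn α p v := fun p hp v => by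
    rw [one_mul, fn, show α p = _ from if_neg hp]; rfl
  have lg : ∀ p, p ≠ pole U0 → LD (fn α) aS g p := fun p hp =>
    LD_pull ((hk0 U0 _).comp ((dif_iff.1 hL.1 _).comp (ld_cay hk0 hp))) one_pos (e1 p hp)
  have li : ∀ᶠ p in 𝓝 (pole U0), LD aS (fn α) (fun p => p) p := by
    filter_upwards [near_pole lL]
    rintro _ (rfl | ⟨q, hq, rfl⟩)
    · exact LD_pull (LD.refl aS _) one_pos fun v => by
        rw [D_id, one_mul, fn, show α _ = _ from if_pos rfl]; rfl
    · obtain ⟨c, c0, hc⟩ := ((LD_kap (U := U0) _).comp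
        (LD.comp' (f := cay U0) hq (LD_cay (kap_ne q)) (cay_kap q))).cf
      exact LD_pull (LD.refl aS _) c0 fun v => by
        rw [D_id, ← hc, ← one_mul (fn _ _ _), ← e1 _ (kap_ne q)]
  have : Nonempty S5 := ⟨pole U0⟩
  refine ⟨α, fun h => hN ?_, ?_⟩
  · obtain ⟨F, hF⟩ := std_iff.1 h
    obtain ⟨S, S1, S2⟩ := sphere_germ (fun _ => LD_kap) germC (s := F)
      (li.mono fun p hp => (hF p).comp hp)
    let G : S5 ≃ S5 := S.trans F.symm
    have lG : ∀ p, LD aS (fn α) G p := fun p => (LD_symm hF _).comp (S1 p)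
    have eG : ∀ᶠ p in 𝓝 (pole U0), G p = p := S2.mono fun p hp => by
      rw [Equiv.trans_apply, hp, F.symm_apply_apply]
    have bG : BijOn G {pole U0}ᶜ {pole U0}ᶜ := by
      simpa [image_compl_eq G.bijective, eG.self_of_nhds] using
        (G.injective.injOn (s := {pole U0}ᶜ)).bijOn_image
    let L' := Equiv.ofBijective _ (bijOn_univ.1 (bij_cay.comp (bg.comp (bG.comp (bij_kap U0)))))
    have k := (con_iff (K := L')).2 fun q => by
      have k1 := bG.mapsTo (kap_ne q)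
      have k3 := (lG _).comp (LD_kap (U := U0) q)
      have k2 := (lg _ k1).comp' k3 rfl
      exact (LD_cay (bg.mapsTo k1)).comp' k2 rfl
    refine ⟨L', ⟨k.1, ?_⟩, k.2⟩
    filter_upwards [hL.2, kap_top.eventually eG] with q a b
    change cay U0 (g (G (kap U0 q))) = _
    simp only [b, g, cay_kap, a]
  · obtain ⟨G, g1, g2, -, g4⟩ := exists_pd (α := α) (β := std) isOpen_compl_singleton bg lg
    obtain ⟨V, v1, v2, v3⟩ := _root_.mem_nhds_iff.1 li
    obtain ⟨d, -, d2, -, d4⟩ := exists_pd (α := std) (β := α) v2 (bijOn_id V) v1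
    exact ⟨_, _, G, d, g1, g2, g4, d2 ▸ v3, d4⟩

theorem piece_out {M : Type} [TopologicalSpace M] [ChartedSpace R5 M] [T2Space M] [CompactSpace M]
    {α : Form R5 M} {ε : ℝ} {e : PD R5 S5 M} {j : PD R5 M S5} (e0 : 0 < ε) (e1 : ε < 1)
    (h : Piece std (fun p => ((p : C3) 0).re) ε α std e j) :
    Out (fn α) (e (kap U0 xo)) (fun p => e (kap U0 (nu p))) ∧
      ∀ᶠ h in 𝓝 xo, LD aH (fn α) (fun h => e (kap U0 h)) h := by
  obtain ⟨he, hj, se, sj⟩ := h
  set e' : H → M := fun h => e (kap U0 h) with he'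
  have ms : ∀ h, gau h < 1 + ε → kap U0 h ∈ e.source := fun h hh => se ▸ kap_in e0 hh
  have le : ∀ h, gau h < 1 + ε → LD aH (fn α) e' h := fun h hh => (he.ld (ms h hh)).comp (LD_kap h)
  have ie : InjOn e' {h | gau h < 1 + ε} := fun p hp q hq h =>
    LeftInverse.injective cay_kap (e.injOn (ms p hp) (ms q hq) h)
  have oB : IsOpen (e' '' {h | gau h < 1 - ε / 2}) :=
    isOpen_image_of_LD (isOpen_lt cont_gau continuous_const) fun h (hh : gau h < _) =>
      le h (by linarith)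
  have sK : (e' '' {h | gau h < 1 - ε / 2})ᶜ ⊆ j.source := by
    rw [sj]
    refine compl_subset_compl.2 ?_
    rintro _ ⟨p, hp, rfl⟩
    have hp' : ε ≤ ((p : C3) 0).re := hp
    have k := kap_cay (ne_pole (p := p) (by linarith))
    refine ⟨cay U0 p, ?_, congrArg e k⟩
    have := kap_out e0 (h := cay U0 p) (k.symm ▸ hp')
    change gau _ < _
    linarith
  obtain ⟨h₁, g₁⟩ : ∃ h₁ : H, gau h₁ = 1 - 3 * ε / 4 :=
    ⟨(0, 0, √(1 - 3 * ε / 4)), by simp [gau, rho, Real.sq_sqrt (show 0 ≤ 1 - 3 * ε / 4 by linarith)]⟩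
  have m₁ : e' h₁ ∈ j.source := by
    rw [sj]
    rintro ⟨p, hp, eq⟩
    have hp' : ε ≤ ((p : C3) 0).re := hp
    rw [e.injOn (se ▸ (show -ε < ((p : C3) 0).re by linarith)) (ms h₁ (by linarith)) eq] at hp'
    linarith [kap_out e0 hp']
  obtain ⟨U, hU⟩ := exists_pole (j (e' h₁))
  have nK : ∀ m ∈ (e' '' {h | gau h < 1 - ε / 2})ᶜ, j m ≠ pole U := fun m hm eq =>
    hm ⟨h₁, show gau h₁ < _ by linarith, (j.injOn (sK hm) m₁ (eq.trans hU)).symm⟩
  have lJ : ∀ m ∈ (e' '' {h | gau h < 1 - ε / 2})ᶜ, LD (fn α) aH (fun m => cay U (j m)) m :=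
    fun m hm => (LD_cay (nK m hm)).comp (hj.ld (sK hm))
  have sW : (e' '' {h | gau h ≤ 1 - ε / 2})ᶜ ⊆ (e' '' {h | gau h < 1 - ε / 2})ᶜ :=
    compl_subset_compl.2 (image_mono fun h (hh : gau h < _) => hh.le)
  exact ⟨C.core (a := 1 - ε / 2) (b := 1 + ε) (J := fun m => cay U (j m))
    (by linarith) (by linarith) (by linarith) le ie (fun m hm => lJ m (sW hm))
    (fun m hm m' hm' eq => j.injOn (sK (sW hm)) (sK (sW hm')) (by
      rw [← kap_cay (nK m (sW hm)), ← kap_cay (nK m' (sW hm'))]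
      exact congrArg (kap U) eq))
    (oB.isClosed_compl.isCompact.image_of_continuousOn (contOn_of_LD lJ))
    (fun m hm => mem_image_of_mem _ (sW hm)), (cont_gau.continuousAt.eventually_lt
      continuousAt_const (by rw [gau_xo]; linarith)).mono le⟩

/-- The periodic continuation of a map which is periodic far up. -/
def pz (c C : ℝ) (G : H → H) (p : H) : H := cj G (-(c * ⌈(C - p.2.2) / c⌉₊)) p

theorem pz_eq {c C : ℝ} {G : H → H} (c0 : 0 < c) (t : Tub c C G) {p : H} {n : ℕ}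
    (h : C ≤ p.2.2 + c * n) : pz c C G p = cj G (-(c * n)) p := by
  have k := Nat.le_ceil ((C - p.2.2) / c)
  rw [div_le_iff₀ c0] at k
  have l : ⌈(C - p.2.2) / c⌉₊ ≤ n := Nat.ceil_le.2 (by rw [div_le_iff₀ c0]; linarith)
  clear h
  induction n, l using Nat.le_induction with
  | base => rfl
  | succ n l ih =>
    have : (⌈(C - p.2.2) / c⌉₊ : ℝ) ≤ n := by exact_mod_cast l
    rw [ih, cj, cj, neg_neg, neg_neg, show c * ((n + 1 : ℕ) : ℝ) = c * n + c by push_cast; ring,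
      ← vt_vt, t.2.2.2 _ (by rw [vt_t]; nlinarith), vt_vt]
    congr 1
    ring

theorem ex_n {c : ℝ} (c0 : 0 < c) (a : ℝ) : ∃ n : ℕ, a < c * n := by
  obtain ⟨n, hn⟩ := exists_nat_gt (a / c)
  exact ⟨n, by rwa [div_lt_iff₀' c0] at hn⟩

theorem pz_inv {c C : ℝ} {G G' : H → H} (c0 : 0 < c) (t : Tub c C G) (t' : Tub c C G')
    (i : ∀ p, G' (G p) = p) (p : H) : pz c C G' (pz c C G p) = p := by
  obtain ⟨n, hn⟩ := ex_n c0 (|C - p.2.2| + |C - (pz c C G p).2.2|)
  have := le_abs_self (C - p.2.2)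
  have := le_abs_self (C - (pz c C G p).2.2)
  have := abs_nonneg (C - p.2.2)
  have := abs_nonneg (C - (pz c C G p).2.2)
  rw [pz_eq c0 t' (n := n) (by linarith), pz_eq c0 t (n := n) (by linarith), cj, cj, vt_neg, i,
    vt_neg']

theorem exists_per {c C : ℝ} {K : H ≃ H} (c0 : 0 < c) (t : Tub c C K)
    (l : ∀ p : H, C ≤ p.2.2 → LH K p) : ∃ P : H ≃ H, (∀ p, LH P p) ∧
      (∀ p, P (vt c p) = vt c (P p)) ∧ (∀ p, C < rho p → P p = p) ∧
      (∀ p, |(P p).2.2 - p.2.2| ≤ C) ∧ ∀ p : H, 2 * C ≤ p.2.2 → P p = K p := by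
  have C0 := t.1
  have t1 : Tub c (2 * C) K := t.mono (by linarith)
  refine ⟨⟨pz c (2 * C) K, pz c (2 * C) K.symm, pz_inv c0 t1 t.symm K.symm_apply_apply,
    pz_inv c0 t.symm t1 K.apply_symm_apply⟩, fun p => ?_, fun p => ?_, fun p hp => ?_,
    fun p => ?_, fun p hp => ?_⟩
  · obtain ⟨n, hn⟩ := ex_n c0 (2 * C - p.2.2)
    refine (LD.comp (g := vt _) (LH_vt (-(c * n)) _) ((l _ (by
      rw [vt_t]; linarith)).comp (LH_vt (- -(c * n)) p))).congr ?_
    filter_upwards [continuousAt_const.eventually_lt (g := fun q : H => q.2.2 + c * n)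
      (by fun_prop) (show 2 * C < p.2.2 + c * n by linarith)] with q hq using pz_eq c0 t1 hq.le
  · obtain ⟨n, hn⟩ := ex_n c0 (2 * C - p.2.2)
    change pz c (2 * C) K _ = vt c (pz c (2 * C) K p)
    rw [pz_eq c0 t1 (n := n) (by rw [vt_t]; linarith), pz_eq c0 t1 (n := n) (by linarith), cj, cj,
      vt_vt, add_comm, ← vt_vt, t1.2.2.2 _ (by rw [vt_t]; linarith), vt_vt, vt_vt, add_comm]
  · exact cj_fix (t.2.1 _ (Or.inl hp))
  · change |(vt _ (K (vt _ p))).2.2 - _| ≤ _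
    have := t.2.2.1 (vt (- -(c * ⌈(2 * C - p.2.2) / c⌉₊)) p)
    rw [vt_t] at this ⊢
    convert this using 2
    ring
  · change pz c (2 * C) K p = _
    rw [pz_eq c0 t1 (n := 0) (by simpa using hp)]
    simp [cj]

theorem dl_eq (l : ℝ) (p : H) : dl l p = (l * p.1, l * p.2.1, l ^ 2 * p.2.2) := by
  simp [dl_apply, hz_apply, et, dt_apply, Prod.ext_iff]

/-- Dilations as bijections. -/
def dlE {l : ℝ} (h : l ≠ 0) : H ≃ H :=
  ⟨dl l, dl l⁻¹, fun p => by simpa using dl_inv (inv_ne_zero h) p, dl_inv h⟩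

theorem LH_dl {l : ℝ} (h : 0 < l) (p : H) : LH (dl l) p :=
  LD.of_vec (dl l).contDiff.contDiffAt (dl l⁻¹).contDiff.contDiffAt
    (.of_forall (dlE h.ne').left_inv) (.of_forall (dl_inv h.ne')) (pow_pos h 2) fun v => by
      rw [ContinuousLinearMap.fderiv, aH_eq, aH_eq, dt_dl, th_dl, th_anti, th_dl, th_anti v]; ring

theorem dl_top {l : ℝ} (h : l ≠ 0) : Tendsto (dl l) (cocompact H) (cocompact H) :=
  (Homeomorph.mk (dlE h) (dl l).continuous (dl l⁻¹).continuous).isClosedEmbedding.tendsto_cocompact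

theorem to_tube {α β : Form R5 S5} (hα : ¬Std α) (h : IsSum α β std) {ε : ℝ} (ε0 : 0 < ε) :
    ∃ K : H ≃ H, Dif K ∧ Con K ∧ Per ε K ∧ (∃ L, Cut K L) ∧ ¬∃ L, Cut K L ∧ Con L := by
  obtain ⟨_, e0, e1, e, _, _, _, h₁, -⟩ := h
  obtain ⟨⟨Ψ, K, c, C, c0, t, bΨ, lΨ, lK, far⟩, le⟩ := piece_out e0 e1 h₁
  obtain ⟨P, p1, p2, p3, p4, p5⟩ := exists_per c0 t lK
  have C0 := t.1
  set m₀ := e (kap U0 xo)
  let s : S5 → S5 := fun p => e (kap U0 (tr xo (cay UA p)))
  have c1 : cay UA (pole U0) = 0 := by rw [← kap_zero, cay_kap]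
  have s0 : s (pole U0) = m₀ := by simp only [s, c1, tr_zero, m₀]
  have n1 : pole U0 ≠ pole UA := kap_zero ▸ kap_ne 0
  have ls : ∀ᶠ p in 𝓝 (pole U0), LD aS (fn α) s p := by
    have := ((LH_tr xo _).comp (LD_cay n1)).cont.tendsto
    simp only [c1, tr_zero] at this
    filter_upwards [this.eventually le, eventually_ne_nhds n1] with p a b
    exact LD.comp (g := fun h => e (kap U0 h)) a ((LH_tr xo _).comp (LD_cay b))
  have fs : ∀ᶠ q in cocompact H, Ψ (s (kap U0 q)) = if 0 ≤ q.2.2 then P q else q := by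
    filter_upwards [(isCompact_singleton (x := (0 : H))).compl_mem_cocompact,
      far_or (2 * C + 1)] with q a b
    have r : 2 * C + 1 < ‖(q.1, q.2.1)‖ → C < rho q := fun b => not_le.1 fun k => by
      linarith [max_le (nz_le k).1 (nz_le k).2, Prod.norm_def (q.1, q.2.1)]
    have : cay UA (kap U0 q) = iv q := by
      conv_lhs => rw [← iv_iv a, kap_iv (iv_ne a), cay_kap]
    change Ψ (e (kap U0 (tr xo _))) = _
    rw [this]
    refine (far q (b.imp r fun b => by linarith)).trans ?_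
    rcases b with b | b
    · rw [p3 q (r b), ite_self, t.2.1 q (Or.inl (r b))]
    · split_ifs with k
      · rw [abs_of_nonneg k] at b
        exact (p5 q (by linarith)).symm
      · rw [abs_of_neg (not_le.1 k)] at b
        exact t.2.1 q (Or.inr (by linarith))
  obtain ⟨n, hn⟩ := exists_nat_gt (max (1 / c) (((2 * C + 2) / ε) ^ 2 / c))
  have a1 : 1 < n * c := (div_lt_iff₀ c0).1 ((le_max_left _ _).trans_lt hn)
  have a2 : ((2 * C + 2) / ε) ^ 2 < n * c := (div_lt_iff₀ c0).1 ((le_max_right _ _).trans_lt hn)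
  set l := (√(n * c))⁻¹ with hl
  have r1 : 1 < √(n * c) := Real.lt_sqrt_of_sq_lt (by simpa using a1)
  have l0 : 0 < l := inv_pos.2 (by linarith)
  have l1 : l ≤ 1 := inv_le_one_of_one_le₀ r1.le
  have l2 : l ^ 2 * (n * c) = 1 := by
    rw [hl, inv_pow, Real.sq_sqrt (by linarith), inv_mul_cancel₀ (by linarith)]
  have l3 : l * (2 * C + 2) ≤ ε := by
    have := Real.lt_sqrt_of_sq_lt a2
    rw [div_lt_iff₀ ε0] at this
    rw [hl, inv_mul_le_iff₀ (by linarith)]
    exact this.le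
  let δ := dlE l0.ne'
  have sg : ∀ q : H, 0 ≤ (δ q).2.2 ↔ 0 ≤ q.2.2 := fun q => by
    change 0 ≤ dt (dl l q) ↔ _
    rw [dt_dl, mul_nonneg_iff_of_pos_left (pow_pos l0 2), dt_apply]
  have lδ : ∀ {G : H ≃ H}, (∀ p, LH G p) → ∀ p, LH (δ.symm.trans (G.trans δ)) p := fun hG p =>
    (LH_dl l0 _).comp ((hG _).comp (LH_dl (inv_pos.2 l0) p))
  have k := con_iff.2 (lδ p1)
  refine ⟨δ.symm.trans (P.trans δ), k.1, k.2, ⟨fun p => ?_, fun p hp => ?_, fun p => ?_⟩, ?_, ?_⟩
  · obtain ⟨q, rfl⟩ := δ.surjective p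
    have e2 : ∀ q, δ q + (0, 0, 1) = δ (vt (n * c) q) := fun q => by
      change dl l _ + _ = dl l _
      simp [dl_eq, vt, mul_add, l2]
    have e3 : ∀ m : ℕ, P (vt (m * c) q) = vt (m * c) (P q) := fun m => by
      induction m with
      | zero => simp
      | succ m ih => rw [Nat.cast_succ, add_one_mul, ← vt_vt, p2, ih, vt_vt]
    simp only [Equiv.trans_apply, e2, Equiv.symm_apply_apply, e3]
  · obtain ⟨q, rfl⟩ := δ.surjective p
    simp only [Equiv.trans_apply, Equiv.symm_apply_apply]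
    refine congrArg δ (p3 q (not_le.1 fun k => ?_))
    change ε ≤ ‖((dl l q).1, (dl l q).2.1)‖ at hp
    simp only [dl_eq, Prod.norm_def, norm_mul, norm_real, Real.norm_of_nonneg l0.le] at hp
    rcases le_max_iff.1 hp with a | a <;> nlinarith [(nz_le k).1, (nz_le k).2]
  · obtain ⟨q, rfl⟩ := δ.surjective p
    simp only [Equiv.trans_apply, Equiv.symm_apply_apply]
    by_cases a : C < rho q
    · rw [p3 q a, sub_self, norm_zero]; exact ε0.le
    have b : rho (P q) ≤ C := not_lt.1 fun k => a (P.injective (p3 _ k) ▸ k)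
    obtain ⟨a3, a4⟩ := nz_le (not_lt.1 a)
    obtain ⟨b3, b4⟩ := nz_le b
    change ‖dl l (P q) - dl l q‖ ≤ ε
    rw [← map_sub, dl_eq]
    simp only [Prod.norm_def, norm_mul, norm_real, norm_pow, Real.norm_of_nonneg l0.le, max_le_iff]
    refine ⟨?_, ?_, ?_⟩
    · nlinarith [norm_sub_le (P q).1 q.1, show ‖(P q - q).1‖ = ‖(P q).1 - q.1‖ from rfl]
    · nlinarith [norm_sub_le (P q).2.1 q.2.1, show ‖(P q - q).2.1‖ = ‖(P q).2.1 - q.2.1‖ from rfl]
    · have : ‖(P q - q).2.2‖ ≤ C := p4 q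
      nlinarith [mul_le_mul_of_nonneg_left this (pow_pos l0 2).le,
        mul_le_mul_of_nonneg_right l1 (mul_nonneg l0.le C0)]
  · obtain ⟨E, E1, E2⟩ := sphere_germ hk0 germ0 (ls.mono fun p hp => LD_zero hp)
    have bE : BijOn E {pole U0}ᶜ {m₀}ᶜ := by
      simpa [image_compl_eq E.bijective, E2.self_of_nhds, s0] using
        (E.injective.injOn (s := {pole U0}ᶜ)).bijOn_image
    let L := Equiv.ofBijective _ (bijOn_univ.1 (bΨ.comp (bE.comp (bij_kap U0))))
    refine ⟨δ.symm.trans (L.trans δ), dif_iff.2 fun p => (LD_zero (LH_dl l0 _)).comp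
      (LD.comp (g := L) (LD.comp (g := Ψ) (LD_zero (lΨ _ (bE.mapsTo (kap_ne _))))
        ((E1 _).comp (hk0 U0 _))) (LD_zero (LH_dl (inv_pos.2 l0) p))), ?_⟩
    filter_upwards [(dl_top (inv_pos.2 l0).ne').eventually (fs.and (kap_top.eventually E2))]
      with p hp
    obtain ⟨q, rfl⟩ := δ.surjective p
    rw [show dl l⁻¹ (δ q) = q from δ.left_inv q] at hp
    simp only [Equiv.trans_apply, Equiv.symm_apply_apply, sg]
    change δ (Ψ (E (kap U0 q))) = _
    rw [hp.2, hp.1, apply_ite δ]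
  · rintro ⟨L, ⟨a, b⟩, a'⟩
    let L' : H ≃ H := δ.trans (L.trans δ.symm)
    have lL : ∀ p, LH L' p := fun p =>
      (LH_dl (inv_pos.2 l0) _).comp ((con_iff.1 ⟨a, a'⟩ _).comp (LH_dl l0 p))
    have fL : ∀ᶠ q in cocompact H, L' q = if 0 ≤ q.2.2 then P q else q := by
      filter_upwards [(dl_top l0.ne').eventually b] with q hq
      have hq' : L (δ q) = if 0 ≤ (δ q).2.2 then δ (P (δ.symm (δ q))) else δ q := hq
      simp only [L', Equiv.trans_apply, hq', sg, Equiv.symm_apply_apply, apply_ite δ.symm]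
    obtain ⟨F, f0, f1⟩ := exists_ext (x := m₀) (y := pole U0)
      ((bij_kap U0).comp (L'.symm.bijective.bijOn_univ.comp bΨ))
    refine hα (std_iff.2 ⟨F, fun m => ?_⟩)
    by_cases k : m = m₀
    · obtain ⟨u, -, u2, -⟩ := ls.self_of_nhds.inv
      refine ls.self_of_nhds.symm' ?_ (s0.trans k.symm)
      filter_upwards [near_pole (fs.and fL), u2] with p hp u3
      rcases hp with rfl | ⟨q, hq, rfl⟩
      · rw [s0, f0]
      · rw [f1 fun k => kap_ne q (u3.symm.trans ((congrArg u (k.trans s0.symm)).trans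
          u2.self_of_nhds))]
        simp only [comp_apply, hq.1, ← hq.2, Equiv.symm_apply_apply]
    · exact ((LD_kap _).comp ((LH_symm lL _).comp (lΨ m k))).congr
        ((eventually_ne_nhds k).mono fun z hz => f1 hz)

theorem tube_form {ε : ℝ} (ε0 : 0 < ε) :
    (∃ α β : Form R5 S5, ¬Std α ∧ ¬Std β ∧ IsSum α β std) ↔
      ∃ K : Hs ≃ Hs, Dif K ∧ Con K ∧ Per ε K ∧ (∃ L, Cut K L) ∧ ¬∃ L, Cut K L ∧ Con L := by
  constructor
  · rintro ⟨α, β, a, -, h⟩
    exact to_tube a h ε0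
  · rintro ⟨K, k1, k2, k3, ⟨L, k4⟩, k5⟩
    obtain ⟨α, a1, a2⟩ := of_tube (con_iff.1 ⟨k1, k2⟩) k3 k4 k5
    obtain ⟨β, b⟩ := (exact_form a1).2 a2
    exact ⟨α, β, a1, b⟩

end
end Pool.Agent.Lib.MP_efe47c_gt.V
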