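import Pool.Agent.Lib.MP_efe47c_gt.V.Glue

/-! Germs at the origin of the Heisenberg group which extend to the whole sphere. -/

namespace Pool.Agent.Lib.MP_efe47c_gt.V
open Set Filter Topology Metric Function Complex
open scoped ContDiff Manifold

noncomputable section

/-- The zero form. -/
def z0 (M E : Type) : M → E → ℝ := fun _ _ => 0

section
variable {E F : Type} [NormedAddCommGroup E] [NormedSpace ℝ E] [NormedAddCommGroup F]
  [NormedSpace ℝ F] {M N : Type} [TopologicalSpace M] [ChartedSpace E M] [TopologicalSpace N]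
  [ChartedSpace F N] {α : M → E → ℝ} {β : N → F → ℝ} {f : M → N} {x : M}

theorem LD_zero (h : LD α β f x) : LD (z0 M E) (z0 N F) f x :=
  ⟨h.sm, h.inv, 1, one_pos, fun _ => by simp [z0]⟩

theorem LD_pull (h : LD α β f x) {γ : N → F → ℝ} {δ : M → E → ℝ} {c : ℝ} (c0 : 0 < c)
    (e : ∀ v, γ (f x) (D E F f x v) = c * δ x v) : LD δ γ f x := ⟨h.sm, h.inv, c, c0, e⟩

end

theorem LD_inj {A : H → H} {p : H} (hA : ContDiffAt ℝ ∞ A p) (hi : Injective (fderiv ℝ A p)) :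
    LD (z0 H H) (z0 H H) A p := by
  let L : H ≃L[ℝ] H :=
    (LinearEquiv.ofInjectiveEndo (fderiv ℝ A p).toLinearMap hi).toContinuousLinearEquiv
  have d : HasFDerivAt A (L : H →L[ℝ] H) p := (cd_diff hA).hasFDerivAt
  have s := hA.hasStrictFDerivAt' d (by simp)
  exact LD.of_vec hA (hA.to_localInverse d (by simp)) s.eventually_left_inverse
    s.eventually_right_inverse one_pos fun _ => by simp [z0]

theorem inj_near {L : H →L[ℝ] H} (h : ‖L - .id ℝ H‖ ≤ 1 / 2) : Injective L := by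
  refine (injective_iff_map_eq_zero L).2 fun v hv => ?_
  have : ‖(L - .id ℝ H) v‖ ≤ 1 / 2 * ‖v‖ := ContinuousLinearMap.le_of_opNorm_le _ h v
  simp only [sub_apply, hv, ContinuousLinearMap.id_apply, zero_sub,
    norm_neg] at this
  exact norm_le_zero_iff.1 (by linarith)

theorem glob {A : H → H} (hA : ContDiff ℝ ∞ A) (h : ∀ p, ‖fderiv ℝ A p - .id ℝ H‖ ≤ 1 / 2) :
    Bijective A := by
  have d : Differentiable ℝ A := hA.differentiable (by simp)
  have l : LipschitzWith (1 / 2) (A - ⇑(ContinuousLinearMap.id ℝ H)) :=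
    lipschitzWith_of_nnnorm_fderiv_le (𝕜 := ℝ) (d.sub (ContinuousLinearMap.id ℝ H).differentiable)
      fun p => by
        rw [fderiv_sub (d p) (ContinuousLinearMap.id ℝ H).differentiableAt,
          ContinuousLinearMap.fderiv, ← NNReal.coe_le_coe]
        simpa using h p
  have a : ApproximatesLinearOn A ((ContinuousLinearEquiv.refl ℝ H : H ≃L[ℝ] H) : H →L[ℝ] H) univ
      (1 / 2) := l.lipschitzOnWith.approximatesLinearOn
  have c : (1 / 2 : NNReal) <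
      ‖((ContinuousLinearEquiv.refl ℝ H).symm : H →L[ℝ] H)‖₊⁻¹ := by
    simp [ContinuousLinearMap.nnnorm_id]
    norm_num
  exact ⟨injOn_univ.1 (a.injOn (Or.inr c)), a.surjective (Or.inr c)⟩

theorem small {X : Type} [NormedAddCommGroup X] [NormedSpace ℝ X] {𝒜 : H × X → H}
    (h : ∀ p, ∀ᶠ z in 𝓝 (p, (0 : X)), ContDiffAt ℝ ∞ 𝒜 z) (h0 : ∀ p, 𝒜 (p, 0) = p) :
    ∃ η, 0 < η ∧ ∀ (u : H → X), ∀ p ∈ closedBall (0 : H) 2, ContDiffAt ℝ ∞ u p → ‖u p‖ < η →
      ‖fderiv ℝ u p‖ < η → ContDiffAt ℝ ∞ (fun q => 𝒜 (q, u q)) p ∧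
        ‖fderiv ℝ (fun q => 𝒜 (q, u q)) p - .id ℝ H‖ ≤ 1 / 2 := by
  have dd : ∀ {u : H → X} {p : H}, ContDiffAt ℝ ∞ 𝒜 (p, u p) → ContDiffAt ℝ ∞ u p →
      fderiv ℝ (fun q => 𝒜 (q, u q)) p =
        (fderiv ℝ 𝒜 (p, u p)).comp ((ContinuousLinearMap.id ℝ H).prod (fderiv ℝ u p)) :=
    fun {u p} h1 h2 => (HasFDerivAt.comp p (g := 𝒜) (f := fun q => (q, u q))
      (cd_diff h1).hasFDerivAt ((hasFDerivAt_id p).prodMk (cd_diff h2).hasFDerivAt)).fderiv
  have k := (isCompact_closedBall (0 : H) 2).eventually_forall_of_forall_eventually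
    (x₀ := (0 : X × (H →L[ℝ] X))) (P := fun z p => ContDiffAt ℝ ∞ 𝒜 (p, z.1) ∧
      ‖(fderiv ℝ 𝒜 (p, z.1)).comp ((ContinuousLinearMap.id ℝ H).prod z.2) - .id ℝ H‖ < 1 / 2)
    fun p _ => by
      have t : ContinuousAt (fun z : (X × (H →L[ℝ] X)) × H => (z.2, z.1.1)) (0, p) := by fun_prop
      refine (t.tendsto.eventually (h p)).and (ContinuousAt.eventually_lt ?_ continuousAt_const ?_)
      · have c1 : ContinuousAt (fun z : (X × (H →L[ℝ] X)) × H => fderiv ℝ 𝒜 (z.2, z.1.1)) (0, p) :=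
          ContinuousAt.comp_of_eq ((h p).self_of_nhds.continuousAt_fderiv (by simp)) t rfl
        have c2 : Continuous fun L : H →L[ℝ] X => (ContinuousLinearMap.id ℝ H).prod L :=
          (ContinuousLinearMap.prodₗᵢ ℝ).continuous.comp (continuous_const.prodMk continuous_id)
        have c3 : Continuous fun z : (X × (H →L[ℝ] X)) × H =>
            (ContinuousLinearMap.id ℝ H).prod z.1.2 := c2.comp continuous_fst.snd
        exact ((c1.clm_comp c3.continuousAt).sub continuousAt_const).norm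
      · have := dd (u := fun _ => 0) (h p).self_of_nhds contDiffAt_const
        simp only [h0, fderiv_fun_const, Pi.zero_apply, fderiv_fun_id] at this
        simp [← this]
  obtain ⟨η, η0, hη⟩ := Metric.eventually_nhds_iff.1 k
  refine ⟨η, η0, fun u p hp c h1 h2 => ?_⟩
  obtain ⟨k1, k2⟩ := hη (y := (u p, fderiv ℝ u p)) (by
    rw [dist_zero_right, Prod.norm_def]; exact max_lt h1 h2) p hp
  exact ⟨k1.comp p (contDiffAt_id.prodMk c), (dd k1 c).symm ▸ k2.le⟩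

/-- A cut-off function. -/
def chi : ContDiffBump (0 : H) := ⟨1, 2, one_pos, one_lt_two⟩

theorem chi_out {p : H} (h : p ∉ closedBall (0 : H) 2) : ∀ᶠ q in 𝓝 p, chi q = 0 :=
  mem_of_superset (isClosed_closedBall.isOpen_compl.mem_nhds h) fun _ hq =>
    chi.zero_of_le_dist (not_le.1 (mt mem_closedBall.2 hq)).le

/-- Maps which are the identity far out and close to it in a ball are diffeomorphisms. -/
theorem cut {A : H → H} (h1 : ∀ p ∈ closedBall (0 : H) 2, ContDiffAt ℝ ∞ A p ∧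
    ‖fderiv ℝ A p - .id ℝ H‖ ≤ 1 / 2) (h2 : ∀ p ∉ closedBall (0 : H) 2, A p = p) :
    Bijective A ∧ ∀ p, LD (z0 H H) (z0 H H) A p := by
  have k : ∀ p, ContDiffAt ℝ ∞ A p ∧ ‖fderiv ℝ A p - .id ℝ H‖ ≤ 1 / 2 := fun p => by
    by_cases hp : p ∈ closedBall (0 : H) 2
    · exact h1 p hp
    · have e : A =ᶠ[𝓝 p] id := mem_of_superset (isClosed_closedBall.isOpen_compl.mem_nhds hp) h2
      exact ⟨contDiffAt_id.congr_of_eventuallyEq e, by rw [e.fderiv_eq]; simp⟩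
  exact ⟨glob (contDiff_iff_contDiffAt.2 fun p => (k p).1) fun p => (k p).2,
    fun p => LD_inj (k p).1 (inj_near (k p).2)⟩

theorem one_par {P : ℝ → Prop} (h1 : ∀ᶠ s in 𝓝 0, P s) (h2 : ∀ s t, P s → P t → P (s + t))
    (s : ℝ) : P s := by
  obtain ⟨n, hn⟩ := ((tendsto_one_div_add_atTop_nhds_zero_nat.mul_const s).eventually
    (by simpa using h1)).exists
  have k : ∀ m : ℕ, P (m * (1 / ((n : ℝ) + 1) * s)) := fun m => by
    induction m with
    | zero => simpa using h1.self_of_nhds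
    | succ m ih => simpa [add_mul] using h2 _ _ ih hn
  convert k (n + 1) using 1
  push_cast
  field_simp

variable {σ : S5 → R5 → ℝ} {τ : H → H → ℝ} {φ ψ : H → H}

variable (σ) in
/-- The germ of `φ` at the origin extends to the sphere. -/
def Xt (φ : H → H) : Prop :=
  ∃ Φ : S5 ≃ S5, (∀ p, LD σ σ Φ p) ∧ ∀ᶠ h in 𝓝 0, Φ (kap U0 h) = kap U0 (φ h)

theorem Xt.congr (h : Xt σ φ) (e : ψ =ᶠ[𝓝 0] φ) : Xt σ ψ := by
  obtain ⟨Φ, h1, h2⟩ := h
  exact ⟨Φ, h1, by filter_upwards [h2, e] with p a b using by rw [a, b]⟩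

theorem Xt.comp (h : Xt σ φ) (k : Xt σ ψ) (t : Tendsto ψ (𝓝 0) (𝓝 0)) :
    Xt σ fun p => φ (ψ p) := by
  obtain ⟨Φ, h1, h2⟩ := h
  obtain ⟨Ψ, k1, k2⟩ := k
  exact ⟨Ψ.trans Φ, fun p => (h1 _).comp (k1 p), by
    filter_upwards [k2, t.eventually h2] with p a b using by rw [Equiv.trans_apply, a, b]⟩

theorem LD_symm {M : Type} [TopologicalSpace M] [ChartedSpace R5 M] {α : M → R5 → ℝ}
    {Φ : M ≃ S5} (h : ∀ p, LD α σ Φ p) (p : S5) : LD σ α Φ.symm p :=
  (h (Φ.symm p)).symm' (.of_forall Φ.symm_apply_apply) (Φ.apply_symm_apply p)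

theorem Xt.cancel (h : Xt σ φ) (k : Xt σ fun p => φ (ψ p)) (t : Tendsto ψ (𝓝 0) (𝓝 0)) :
    Xt σ ψ := by
  obtain ⟨Φ, h1, h2⟩ := h
  obtain ⟨Ψ, k1, k2⟩ := k
  exact ⟨Ψ.trans Φ.symm, fun p => (LD_symm h1 _).comp (k1 p), by
    filter_upwards [k2, t.eventually h2] with p a b using by
      rw [Equiv.trans_apply, a, ← b, Φ.symm_apply_apply]⟩

theorem Xt.id : Xt σ fun p => p := ⟨.refl _, LD.refl σ, .of_forall fun _ => rfl⟩

theorem ld_cay (hk : ∀ U h, LD τ σ (kap U) h) {U : C3 ≃ₗᵢ[ℂ] C3} {p : S5} (h : p ≠ pole U) :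
    LD σ τ (cay U) p := (hk U (cay U p)).symm' (.of_forall cay_kap) (kap_cay h)

theorem Xt.of_cs (hk : ∀ U h, LD τ σ (kap U) h) (Ψ : H ≃ H) (l : ∀ p, LD τ τ Ψ p)
    (o : ∀ p ∉ closedBall (0 : H) 2, Ψ p = p) : Xt σ Ψ := by
  classical
  let X : (H → H) → S5 → S5 := fun G p => if p = pole U0 then p else kap U0 (G (cay U0 p))
  have x1 : ∀ G h, X G (kap U0 h) = kap U0 (G h) := fun G h => by
    simp only [X, if_neg (kap_ne h), cay_kap]
  have x2 : ∀ G : H ≃ H, LeftInverse (X G.symm) (X G) := fun G p => by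
    by_cases a : p = pole U0
    · simp only [X, if_pos a]
    · rw [← kap_cay a, x1, x1, G.symm_apply_apply]
  refine ⟨⟨X Ψ, X Ψ.symm, x2 Ψ, x2 Ψ.symm⟩, fun p => ?_, .of_forall (x1 Ψ)⟩
  by_cases a : p = pole U0
  · refine (LD.refl σ p).congr ?_
    filter_upwards [((isCompact_closedBall (0 : H) 2).image_of_continuousOn
      (contOn_of_LD fun h _ => hk U0 h)).isClosed.isOpen_compl.mem_nhds
      (show p ∈ _ from fun ⟨h, _, e⟩ => kap_ne h (e.trans a))] with q hq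
    by_cases b : q = pole U0
    · exact if_pos b
    · change X Ψ q = q
      rw [← kap_cay b, x1, o _ fun k => hq ⟨_, k, kap_cay b⟩]
  · exact ((hk U0 _).comp ((l _).comp (ld_cay hk a))).congr
      ((eventually_ne_nhds a).mono fun q hq => if_neg hq)

/-- Unitary maps of the sphere. -/
def un (V : C3 ≃ₗᵢ[ℂ] C3) : S5 ≃ S5 :=
  ⟨fun p => ⟨V p, by simp⟩, fun p => ⟨V.symm p, by simp⟩, fun p => by simp, fun p => by simp⟩

theorem un_kap (V U : C3 ≃ₗᵢ[ℂ] C3) (h : H) : un V (kap U h) = kap (V.symm.trans U) h :=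
  Subtype.ext (by simp [un, kap])

theorem ld_un (hk : ∀ U h, LD τ σ (kap U) h) (V : C3 ≃ₗᵢ[ℂ] C3) (p : S5) : LD σ σ (un V) p := by
  obtain ⟨U, hU⟩ := exists_pole (-p)
  have h : p ≠ pole U := hU ▸ ne_neg_of_mem_unit_sphere ℝ p
  refine ((hk (V.symm.trans U) _).comp (ld_cay hk h)).congr ?_
  filter_upwards [eventually_ne_nhds h] with q hq
  rw [← un_kap, kap_cay hq]

theorem exists_ctr (y : S5) : ∃ U, kap U 0 = y := by
  obtain ⟨U, hU⟩ := exists_pole (-y)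
  refine ⟨U, Subtype.ext ?_⟩
  have e : k0 0 = -WithLp.toLp 2 ![-1, 0, 0] := by
    ext i
    fin_cases i <;> simp [k0, cu, ze, rho]
    norm_num
  change U.symm (k0 0) = y
  rw [e, map_neg, neg_eq_iff_eq_neg]
  exact congrArg Subtype.val hU

theorem sphere_germ (hk : ∀ U h, LD τ σ (kap U) h)
    (hX : ∀ φ : H → H, (∀ᶠ p in 𝓝 0, LD τ τ φ p) → φ 0 = 0 → Xt σ φ) {s : S5 → S5} {y : S5}
    (hs : ∀ᶠ p in 𝓝 y, LD σ σ s p) : ∃ S : S5 ≃ S5, (∀ p, LD σ σ S p) ∧ S =ᶠ[𝓝 y] s := by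
  obtain ⟨U, rfl⟩ := exists_ctr y
  obtain ⟨V, hV⟩ := exists_ctr (s (kap U 0))
  have n1 : ∀ᶠ p in 𝓝 (kap U 0), s p ≠ pole V :=
    hs.self_of_nhds.cont.eventually_ne (hV ▸ kap_ne 0)
  obtain ⟨Φ, h1, h2⟩ := hX (fun h => cay V (s (kap U h))) (by
    filter_upwards [(hk U 0).cont.tendsto.eventually (hs.and n1)] with h hh
    have l := hh.1.comp (hk U h)
    exact LD.comp (g := cay V) (ld_cay hk hh.2) l) (by rw [← hV, cay_kap])
  refine ⟨(un U).trans (Φ.trans (un V.symm)), fun p =>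
    (ld_un hk _ _).comp ((h1 _).comp (ld_un hk _ _)), ?_⟩
  have t := (ld_cay hk (kap_ne (U := U) 0)).cont.tendsto
  rw [cay_kap] at t
  filter_upwards [t.eventually h2, n1, eventually_ne_nhds (kap_ne (U := U) 0)] with p a b c
  have e1 : un U p = kap U0 (cay U p) := by
    conv_lhs => rw [← kap_cay c]
    exact Subtype.ext (U.apply_symm_apply _)
  rw [kap_cay c] at a
  rw [Equiv.trans_apply, Equiv.trans_apply, e1, a]
  conv_rhs => rw [← kap_cay b]
  rfl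

end
end Pool.Agent.Lib.MP_efe47c_gt.V
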